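import Pool.Agent.U722.TT.Gl

/-!
# Groups of matrices of degree two with traces in a small field
-/

set_option autoImplicit false

namespace Pool.Agent.U722.TT

open Matrix

variable {F : Type} [Field F]

theorem trace_fix {A : Matrix (Fin 2) (Fin 2) F} {u : Fin 2 → F} (hu : u 0 ≠ 0 ∨ u 1 ≠ 0)
    (a0 : A 0 0 * u 0 + A 0 1 * u 1 = u 0) (a1 : A 1 0 * u 0 + A 1 1 * u 1 = u 1)
    (hd : A 0 0 * A 1 1 - A 0 1 * A 1 0 = 1) : A 1 1 = 2 - A 0 0 := by
  rcases hu with h | h
  · have : u 0 * (2 - A 0 0 - A 1 1) = u 0 * 0 := by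
      linear_combination (A 1 1 - 1) * a0 - A 0 1 * a1 - u 0 * hd
    have := mul_left_cancel₀ h this
    linear_combination - this
  · have : u 1 * (2 - A 0 0 - A 1 1) = u 1 * 0 := by
      linear_combination (A 0 0 - 1) * a1 - A 1 0 * a0 - u 1 * hd
    have := mul_left_cancel₀ h this
    linear_combination - this

/-- two matrices with determinant one and a common fixed vector commute -/
theorem comm_fix {A B : Matrix (Fin 2) (Fin 2) F} {u : Fin 2 → F} (hu : u ≠ 0)
    (hA : A.mulVec u = u) (hB : B.mulVec u = u) (hdA : A.det = 1) (hdB : B.det = 1) :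
    A * B = B * A := by
  have a0 := congrFun hA 0
  have a1 := congrFun hA 1
  have b0 := congrFun hB 0
  have b1 := congrFun hB 1
  simp only [Matrix.mulVec, dotProduct, Fin.sum_univ_two] at a0 a1 b0 b1
  rw [Matrix.det_fin_two] at hdA hdB
  have hu' : u 0 ≠ 0 ∨ u 1 ≠ 0 := by
    by_contra h
    push Not at h
    apply hu
    funext i
    fin_cases i
    · exact h.1
    · exact h.2
  have tA := trace_fix hu' a0 a1 hdA
  have tB := trace_fix hu' b0 b1 hdB
  rw [tA] at a1
  rw [tB] at b1
  have key : (A 0 0 - 1) * B 0 1 = (B 0 0 - 1) * A 0 1 ∧ (A 0 0 - 1) * B 1 0 = (B 0 0 - 1) * A 1 0 ∧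
      A 0 1 * B 1 0 = B 0 1 * A 1 0 := by
    rcases hu' with h | h
    · have m1 : (A 0 0 - 1) * B 0 1 = (B 0 0 - 1) * A 0 1 := by
        apply mul_left_cancel₀ h
        linear_combination B 0 1 * a0 - A 0 1 * b0
      refine ⟨m1, ?_, ?_⟩
      · apply mul_left_cancel₀ h
        linear_combination (A 0 0 - 1) * b1 - (B 0 0 - 1) * a1
      · apply mul_left_cancel₀ h
        linear_combination A 0 1 * b1 - B 0 1 * a1 - u 1 * m1
    · have m2 : (A 0 0 - 1) * B 1 0 = (B 0 0 - 1) * A 1 0 := by
        apply mul_left_cancel₀ h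
        linear_combination - B 1 0 * a1 + A 1 0 * b1
      refine ⟨?_, m2, ?_⟩
      · apply mul_left_cancel₀ h
        linear_combination (A 0 0 - 1) * b0 - (B 0 0 - 1) * a0
      · apply mul_left_cancel₀ h
        linear_combination B 1 0 * a0 - A 1 0 * b0 - u 0 * m2
  obtain ⟨m1, m2, m3⟩ := key
  ext i j
  rw [Matrix.mul_apply, Matrix.mul_apply, Fin.sum_univ_two, Fin.sum_univ_two]
  fin_cases i <;> fin_cases j
  · change A 0 0 * B 0 0 + A 0 1 * B 1 0 = B 0 0 * A 0 0 + B 0 1 * A 1 0
    linear_combination m3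
  · change A 0 0 * B 0 1 + A 0 1 * B 1 1 = B 0 0 * A 0 1 + B 0 1 * A 1 1
    rw [tA, tB]
    linear_combination 2 * m1
  · change A 1 0 * B 0 0 + A 1 1 * B 1 0 = B 1 0 * A 0 0 + B 1 1 * A 1 0
    rw [tA, tB]
    linear_combination - 2 * m2
  · change A 1 0 * B 0 1 + A 1 1 * B 1 1 = B 1 0 * A 0 1 + B 1 1 * A 1 1
    linear_combination - m3 

/-- an invariant line -/
theorem solv_line (H : Subgroup (GL (Fin 2) F)) (u : Fin 2 → F) (hu : u ≠ 0)
    (hH : ∀ h ∈ H, ∃ c : F, h.1.mulVec u = c • u) : Group.IsSolvable ↥H := by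
  choose c hc using (fun h : ↥H => hH h.1 h.2)
  have hinj : ∀ a b : F, a • u = b • u → a = b := fun a b h => smul_left_injective F hu h
  let χ : ↥H →* F :=
    { toFun := c
      map_one' := by
        apply hinj
        rw [← hc 1, one_smul]
        exact Matrix.one_mulVec u
      map_mul' := fun a b => by
        apply hinj
        rw [← hc (a * b)]
        have h1 : ((a * b : ↥H) : GL (Fin 2) F).1 = a.1.1 * b.1.1 := rfl
        rw [h1, ← Matrix.mulVec_mulVec, hc b, Matrix.mulVec_smul, hc a, smul_smul, mul_comm] }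
  have hχ : ∀ h : ↥H, h.1.1.mulVec u = χ h • u := hc
  let φ : ↥H →* Fˣ × Fˣ := χ.toHomUnits.prod
    ((Matrix.GeneralLinearGroup.det : GL (Fin 2) F →* Fˣ).comp H.subtype)
  have hk : Group.IsSolvable φ.ker := by
    apply Group.isSolvable_of_comm
    rintro ⟨a, ha⟩ ⟨b, hb⟩
    apply Subtype.ext
    apply Subtype.ext
    apply Units.ext
    have key : ∀ x : ↥H, φ x = 1 → x.1.1.mulVec u = u ∧ x.1.1.det = 1 := by
      intro x hx
      have h1 := congrArg Prod.fst hx
      have h2 := congrArg Prod.snd hx
      have h3 : χ x = 1 := congrArg Units.val h1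
      have h4 : x.1.1.det = 1 := congrArg Units.val h2
      refine ⟨?_, h4⟩
      rw [hχ, h3, one_smul]
    exact comm_fix hu (key a ha).1 (key b hb).1 (key a ha).2 (key b hb).2
  have hq : Group.IsSolvable (Fˣ × Fˣ) := Group.isSolvable_of_comm (fun a b => mul_comm a b)
  refine Group.isSolvable_of_ker_le_range (φ.ker.subtype) φ ?_
  intro x hx
  exact ⟨⟨x, hx⟩, rfl⟩

theorem adj_of_trace {X : Matrix (Fin 2) (Fin 2) F} (h : X.trace = 0) : X.adjugate = - X := by
  rw [Matrix.trace_fin_two] at h
  rw [Matrix.adjugate_fin_two]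
  ext i j
  fin_cases i <;> fin_cases j
  · change X 1 1 = - X 0 0
    linear_combination h
  · rfl
  · rfl
  · change X 0 0 = - X 1 1
    linear_combination h

/-- **an orthogonal matrix for the trace form** -/
theorem solv_trace (H : Subgroup (GL (Fin 2) F)) (N : Matrix (Fin 2) (Fin 2) F) (hN : N ≠ 0)
    (hH : ∀ h ∈ H, (N * h.1).trace = 0) : Group.IsSolvable ↥H := by
  have h1 : N.adjugate = - N := by
    apply adj_of_trace
    have := hH 1 (one_mem _)
    rwa [Units.val_one, Matrix.mul_one] at this
  have h2 : ∀ h ∈ H, N * h.1 = h.1.adjugate * N := by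
    intro h hh
    have h3 := adj_of_trace (hH h hh)
    rw [Matrix.adjugate_mul_distrib, h1, Matrix.mul_neg] at h3
    exact (neg_injective h3).symm
  by_cases hd : N.det = 0
  · obtain ⟨j, hj⟩ : ∃ j, N.mulVec (Pi.single j 1) ≠ 0 := by
      by_contra hcon
      push Not at hcon
      apply hN
      ext i j
      have := congrFun (hcon j) i
      rw [Matrix.mulVec_single_one] at this
      exact this
    have hker : ∀ v, N.mulVec v = 0 → ∃ c : F, v = c • N.mulVec (Pi.single j 1) := by
      intro v hv
      have e1 : N.mulVec (N.mulVec (Pi.single j 1)) = 0 := by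
        rw [Matrix.mulVec_mulVec]
        have : N * N = 0 := by
          have h4 := Matrix.mul_adjugate N
          rw [h1, hd, zero_smul, Matrix.mul_neg, neg_eq_zero] at h4
          exact h4
        rw [this, Matrix.zero_mulVec]
      obtain ⟨u, hu⟩ : ∃ u, u = N.mulVec (Pi.single j 1) := ⟨_, rfl⟩
      rw [← hu] at hj e1 ⊢
      -- both `v` and `u` are in the kernel of a nonzero row
      obtain ⟨i, k, hik⟩ : ∃ i k, N i k ≠ 0 := by
        by_contra hcon
        push Not at hcon
        apply hN
        ext i k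
        exact hcon i k
      have f1 := congrFun hv i
      have f2 := congrFun e1 i
      simp only [Matrix.mulVec, dotProduct, Fin.sum_univ_two, Pi.zero_apply] at f1 f2
      have hrow : N i 0 ≠ 0 ∨ N i 1 ≠ 0 := by
        fin_cases k
        · exact Or.inl hik
        · exact Or.inr hik
      have hmin : v 0 * u 1 = v 1 * u 0 := by
        rcases hrow with h | h
        · apply mul_left_cancel₀ h
          linear_combination u 1 * f1 - v 1 * f2
        · apply mul_left_cancel₀ h
          linear_combination - u 0 * f1 + v 0 * f2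
      have hu' : u 0 ≠ 0 ∨ u 1 ≠ 0 := by
        by_contra h
        push Not at h
        apply hj
        funext i
        fin_cases i
        · exact h.1
        · exact h.2
      rcases hu' with h | h
      · refine ⟨v 0 / u 0, ?_⟩
        funext i
        fin_cases i
        · change v 0 = v 0 / u 0 * u 0
          rw [div_mul_cancel₀ _ h]
        · change v 1 = v 0 / u 0 * u 1
          field_simp
          linear_combination - hmin
      · refine ⟨v 1 / u 1, ?_⟩
        funext i
        fin_cases i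
        · change v 0 = v 1 / u 1 * u 0
          field_simp
          linear_combination hmin
        · change v 1 = v 1 / u 1 * u 1
          rw [div_mul_cancel₀ _ h]
    refine solv_line H (N.mulVec (Pi.single j 1)) hj ?_
    intro h hh
    apply hker
    rw [Matrix.mulVec_mulVec, Matrix.mulVec_mulVec, h2 h hh]
    have : h.1.adjugate * N * N = 0 := by
      have h4 := Matrix.mul_adjugate N
      rw [h1, hd, zero_smul, Matrix.mul_neg, neg_eq_zero] at h4
      rw [Matrix.mul_assoc, h4, Matrix.mul_zero]
    rw [this, Matrix.zero_mulVec]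
  · apply Group.isSolvable_of_comm
    rintro ⟨a, ha⟩ ⟨b, hb⟩
    apply Subtype.ext
    apply Units.ext
    change a.1 * b.1 = b.1 * a.1
    have hu : IsUnit N := (Matrix.isUnit_iff_isUnit_det N).2 (Ne.isUnit hd)
    apply hu.mul_left_cancel
    have e1 : N * (a.1 * b.1) = b.1.adjugate * (a.1.adjugate * N) := by
      rw [← Matrix.mul_assoc b.1.adjugate, ← Matrix.adjugate_mul_distrib]
      exact h2 (a * b) (mul_mem ha hb)
    rw [e1, ← h2 a ha, ← Matrix.mul_assoc, ← h2 b hb, Matrix.mul_assoc]

end Pool.Agent.U722.TT
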