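import Pool.Agent.U722.TT.Bs

/-!
# Groups of matrices of degree two with traces in a small field: the classes of groups
-/

set_option autoImplicit false

namespace Pool.Agent.U722.TT

open Matrix

variable {C : ∀ (G : Type) [Group G], Prop} {F : Type} [Field F]

/-- **traces in a small field** -/
theorem base (hC : TreeClosed C)
    {k : Type} [Field k] (hk : ∀ n : ℕ, C (GL (Fin n) k)) [Algebra k F]
    (H : Subgroup (GL (Fin 2) F)) (hH : ∀ h ∈ H, ∃ c : k, algebraMap k F c = h.1.trace) : C ↥H := by
  classical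
  by_cases hN : ∃ N : Matrix (Fin 2) (Fin 2) F, N ≠ 0 ∧ ∀ h ∈ H, (N * h.1).trace = 0
  · obtain ⟨N, hN, h1⟩ := hN
    exact hC.solv _ (solv_trace H N hN h1)
  push Not at hN
  -- a finite subset with the same span
  let s : Set (Matrix (Fin 2) (Fin 2) F) := Set.range (fun h : ↥H => h.1.1)
  obtain ⟨t, hts, hspan⟩ := (Submodule.fg_span_iff_fg_span_finset_subset (R := F) s).1
    (IsNoetherian.noetherian _)
  have hsep : ∀ N : Matrix (Fin 2) (Fin 2) F, (∀ x ∈ t, (N * x).trace = 0) → N = 0 := by
    intro N hNt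
    by_contra hne
    obtain ⟨h, hh, hh0⟩ := hN N hne
    apply hh0
    have h1 : h.1 ∈ Submodule.span F s := Submodule.subset_span ⟨⟨h, hh⟩, rfl⟩
    rw [hspan] at h1
    have h2 : Submodule.span F (t : Set (Matrix (Fin 2) (Fin 2) F)) ≤
        LinearMap.ker ((Matrix.traceLinearMap (Fin 2) F F).comp (LinearMap.mulLeft F N)) := by
      rw [Submodule.span_le]
      intro x hx
      exact hNt x hx
    exact h2 h1
  -- the algebra
  let R0 : Submodule k F := LinearMap.range (Algebra.linearMap k F)
  have hR0 : Module.Finite k ↥R0 := inferInstance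
  let A : Subalgebra k (Matrix (Fin 2) (Fin 2) F) := Algebra.adjoin k s
  have hA : ∀ a ∈ A, ∀ x ∈ s, (a * x).trace ∈ R0 := by
    intro a ha x hx
    obtain ⟨h, rfl⟩ := hx
    have h1 : a ∈ Subalgebra.toSubmodule A := ha
    rw [Algebra.adjoin_eq_span] at h1
    have hs : (Submonoid.closure s : Set (Matrix (Fin 2) (Fin 2) F)) = s := by
      have : s = (MonoidHom.mrange ((Units.coeHom (Matrix (Fin 2) (Fin 2) F)).comp H.subtype) :
        Set (Matrix (Fin 2) (Fin 2) F)) := rfl
      rw [this, Submonoid.closure_eq]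
    rw [hs] at h1
    clear ha
    induction h1 using Submodule.span_induction with
    | mem y hy =>
      obtain ⟨g, rfl⟩ := hy
      obtain ⟨c, hc⟩ := hH (g.1 * h.1) (mul_mem g.2 h.2)
      exact ⟨c, hc⟩
    | zero =>
      rw [Matrix.zero_mul, Matrix.trace_zero]
      exact zero_mem _
    | add y z _ _ hy hz =>
      rw [Matrix.add_mul, Matrix.trace_add]
      exact add_mem hy hz
    | smul c y _ hy =>
      rw [Matrix.smul_mul, Matrix.trace_smul]
      exact Submodule.smul_mem _ _ hy
  let Φ : ↥A →ₗ[k] (↥t → ↥R0) :=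
    { toFun := fun a x => ⟨(a.1 * x.1).trace, hA a.1 a.2 x.1 (hts x.2)⟩
      map_add' := fun a b => by
        funext x
        apply Subtype.ext
        change ((a.1 + b.1) * x.1).trace = (a.1 * x.1).trace + (b.1 * x.1).trace
        rw [Matrix.add_mul, Matrix.trace_add]
      map_smul' := fun c a => by
        funext x
        apply Subtype.ext
        change ((c • a.1) * x.1).trace = c • (a.1 * x.1).trace
        rw [Matrix.smul_mul, Matrix.trace_smul] }
  have hΦ : Function.Injective Φ := by
    rw [injective_iff_map_eq_zero]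
    intro a ha
    apply Subtype.ext
    apply hsep
    intro x hx
    have h1 := congrFun ha ⟨x, hx⟩
    exact congrArg Subtype.val h1
  have hfin : Module.Finite k ↥A := Module.Finite.of_injective Φ hΦ
  have hAu : C (↥A)ˣ := fin_alg hC hk ↥A
  -- the embedding
  have hmem : ∀ h : ↥H, h.1.1 ∈ A := fun h => Algebra.subset_adjoin ⟨h, rfl⟩
  let ψ : ↥H →* ↥A :=
    { toFun := fun h => ⟨h.1.1, hmem h⟩
      map_one' := rfl
      map_mul' := fun _ _ => rfl }
  refine hC.of_injective _ _ ψ.toHomUnits ?_ hAu
  intro a b hab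
  have h1 : ψ a = ψ b := congrArg Units.val hab
  apply Subtype.ext
  apply Units.ext
  exact congrArg Subtype.val h1

end Pool.Agent.U722.TT
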