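import Pool.Agent.U709.BT

/-!
# Classes of groups closed under actions on trees, and groups of matrices of degree two over a field
with finitely many discrete valuations
-/

set_option autoImplicit false

namespace Pool.Agent.U722.TT

open Matrix
open Pool.Agent.U709.BT

/-- `C` is closed under actions on trees: a group which acts on a tree without inversions, with vertex
stabilizers in `C`, is in `C`. -/
def TreeC (C : ∀ (G : Type) [Group G], Prop) : Prop :=
  ∀ (G V : Type) [Group G] [MulAction G V] (T : SimpleGraph V), T.IsTree →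
    (∀ (g : G) (u v : V), T.Adj u v → T.Adj (g • u) (g • v)) →
    (∀ (g : G) (u v : V), T.Adj u v → g • u = v → g • v ≠ u) →
    (∀ v : V, C ↥(MulAction.stabilizer G v)) → C G

/-- A class of groups `C` which is closed under subgroups, finite products, directed colimits and
actions on trees, contains the virtually solvable groups, and contains a group `G` if there is a
surjection `π : G → Q` such that `Q` and the preimages of all finite subgroups of `Q` are in `C`. -/
structure TreeClosed (C : ∀ (G : Type) [Group G], Prop) : Prop where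
  of_injective : ∀ (G H : Type) [Group G] [Group H] (f : G →* H), Function.Injective f →
    C H → C G
  prod : ∀ (G H : Type) [Group G] [Group H], C G → C H → C (G × H)
  colim : ∀ (I : Type) [Preorder I] [Nonempty I] (_ : ∀ i j : I, ∃ k, i ≤ k ∧ j ≤ k)
    (G : I → Type) [∀ i, Group (G i)] (f : ∀ i j, i ≤ j → G i →* G j)
    (L : Type) [Group L] (g : ∀ i, G i →* L),
    (∀ i (h : i ≤ i) (x : G i), f i i h x = x) →
    (∀ i j k (h : i ≤ j) (h' : j ≤ k) (x : G i), f j k h' (f i j h x) = f i k (h.trans h') x) →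
    (∀ i j (h : i ≤ j) (x : G i), g j (f i j h x) = g i x) →
    (∀ y : L, ∃ i, ∃ x : G i, g i x = y) →
    (∀ i (x : G i), g i x = 1 → ∃ j, ∃ h : i ≤ j, f i j h x = 1) →
    (∀ i, C (G i)) → C L
  vsolv : ∀ (G : Type) [Group G] (K : Subgroup G), K.FiniteIndex → Group.IsSolvable ↥K → C G
  ext : ∀ (G Q : Type) [Group G] [Group Q] (π : G →* Q), Function.Surjective π → C Q →
    (∀ V : Subgroup Q, Finite ↥V → C ↥(V.comap π)) → C G
  tree : TreeC C

variable {C : ∀ (G : Type) [Group G], Prop}

namespace TreeClosed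

theorem solv (hC : TreeClosed C) (G : Type) [Group G] (h : Group.IsSolvable G) : C G := by
  refine hC.vsolv G ⊤ inferInstance ?_
  exact Group.isSolvable_of_isSolvable_injective (Subgroup.subtype_injective (⊤ : Subgroup G))

theorem fin (hC : TreeClosed C) (G : Type) [Group G] [Finite G] : C G :=
  hC.vsolv G ⊥ inferInstance inferInstance

theorem le (hC : TreeClosed C) {G : Type} [Group G] {H K : Subgroup G} (h : H ≤ K) (hK : C ↥K) :
    C ↥H :=
  hC.of_injective _ _ (Subgroup.inclusion h) (Subgroup.inclusion_injective h) hK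

/-- colimit of a directed family of subgroups -/
theorem of_directed (hC : TreeClosed C) (G : Type) [Group G]
    (I : Type) [Preorder I] [Nonempty I] (hI : ∀ i j : I, ∃ k, i ≤ k ∧ j ≤ k)
    (K : I → Subgroup G) (hK : Monotone K) (hg : ∀ g, ∃ i, g ∈ K i) (hc : ∀ i, C (K i)) :
    C G := by
  refine hC.colim I hI (fun i => K i) (fun i j h => Subgroup.inclusion (hK h)) G
    (fun i => (K i).subtype) ?_ ?_ ?_ ?_ ?_ hc
  · intro i h x
    rfl
  · intro i j k h h' x
    rfl
  · intro i j h x
    rfl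
  · intro y
    obtain ⟨i, hi⟩ := hg y
    exact ⟨i, ⟨y, hi⟩, rfl⟩
  · intro i x hx
    refine ⟨i, le_rfl, ?_⟩
    have : x = 1 := Subtype.ext hx
    rw [this, map_one]

/-- the finitely generated subgroups decide -/
theorem of_fg (hC : TreeClosed C) {G : Type} [Group G] (h : ∀ H : Subgroup G, Group.FG H → C H) :
    C G := by
  classical
  refine hC.of_directed G (Finset G) (fun i j => ?_)
    (fun s => Subgroup.closure (s : Set G))
    (fun s t h => Subgroup.closure_mono (by exact_mod_cast h))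
    (fun g => ⟨{g}, Subgroup.subset_closure (by simp)⟩) (fun S => ?_)
  · exact ⟨i ∪ j, Finset.subset_union_left, Finset.subset_union_right⟩
  · exact h _ ((Group.fg_iff_subgroup_fg _).2 ⟨S, rfl⟩)

/-- an extension with a solvable kernel -/
theorem solv_ker (hC : TreeClosed C) {G Q : Type} [Group G] [Group Q] (π : G →* Q)
    (hπ : Function.Surjective π) (hker : Group.IsSolvable π.ker) (hQ : C Q) : C G := by
  refine hC.ext G Q π hπ hQ ?_
  intro V hV
  let f : ↥(V.comap π) →* ↥V := (π.comp (Subgroup.subtype _)).codRestrict _ (fun x => x.2)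
  refine hC.vsolv _ f.ker inferInstance ?_
  have h1 : ∀ x : ↥f.ker, (x.1.1 : G) ∈ π.ker := by
    intro x
    have h1 : f x.1 = 1 := x.2
    exact congrArg Subtype.val h1
  let g : ↥f.ker →* ↥π.ker := ((Subgroup.subtype _).comp f.ker.subtype).codRestrict π.ker h1
  have hg : Function.Injective g := by
    intro a b hab
    have h1 : (a.1.1 : G) = b.1.1 := congrArg (fun z : ↥π.ker => (z : G)) hab
    exact Subtype.ext (Subtype.ext h1)
  exact Group.isSolvable_of_isSolvable_injective hg

/-- a group with a chain of normal subgroups with abelian quotients -/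
theorem chain_quot (hC : TreeClosed C) {Γ : Type} [Group Γ] (N : ℕ → Subgroup Γ)
    [hN : ∀ k, (N k).Normal] (hmono : ∀ k, N (k + 1) ≤ N k)
    (hcomm : ∀ k, ∀ x ∈ N k, ∀ y ∈ N k, x * y * x⁻¹ * y⁻¹ ∈ N (k + 1))
    (h0 : C (Γ ⧸ N 0)) (k : ℕ) : C (Γ ⧸ N k) := by
  induction k with
  | zero => exact h0
  | succ k ih =>
    let π : Γ ⧸ N (k + 1) →* Γ ⧸ N k :=
      QuotientGroup.map (N (k + 1)) (N k) (MonoidHom.id Γ) (fun x hx => hmono k hx)
    refine hC.solv_ker π ?_ ?_ ih
    · intro x
      obtain ⟨x, rfl⟩ := QuotientGroup.mk_surjective x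
      exact ⟨QuotientGroup.mk x, rfl⟩
    · apply Group.isSolvable_of_comm
      rintro ⟨a, ha⟩ ⟨b, hb⟩
      obtain ⟨x, rfl⟩ := QuotientGroup.mk_surjective a
      obtain ⟨y, rfl⟩ := QuotientGroup.mk_surjective b
      have hx : x ∈ N k := (QuotientGroup.eq_one_iff x).1 ha
      have hy : y ∈ N k := (QuotientGroup.eq_one_iff y).1 hb
      apply Subtype.ext
      change (QuotientGroup.mk (x * y) : Γ ⧸ N (k + 1)) = QuotientGroup.mk (y * x)
      rw [QuotientGroup.eq]
      have h1 := hcomm k y⁻¹ (inv_mem hy) x⁻¹ (inv_mem hx)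
      have e : y⁻¹ * x⁻¹ * (y⁻¹)⁻¹ * (x⁻¹)⁻¹ = (x * y)⁻¹ * (y * x) := by group
      rwa [e] at h1

theorem inf_quot (hC : TreeClosed C) {Γ : Type} [Group Γ] (N M K : Subgroup Γ) [N.Normal]
    [M.Normal] [K.Normal] (hK : K = N ⊓ M) (hN : C (Γ ⧸ N)) (hM : C (Γ ⧸ M)) : C (Γ ⧸ K) := by
  let f : Γ →* (Γ ⧸ N) × (Γ ⧸ M) := (QuotientGroup.mk' N).prod (QuotientGroup.mk' M)
  have hf : ∀ x, f x = 1 ↔ x ∈ K := by
    intro x
    rw [hK, Subgroup.mem_inf, ← QuotientGroup.eq_one_iff (N := N), ← QuotientGroup.eq_one_iff (N := M)]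
    exact Prod.ext_iff
  refine hC.of_injective _ _ (QuotientGroup.lift K f (fun x hx => (hf x).2 hx)) ?_
    (hC.prod _ _ hN hM)
  rw [injective_iff_map_eq_one]
  intro a ha
  obtain ⟨x, rfl⟩ := QuotientGroup.mk_surjective a
  exact (QuotientGroup.eq_one_iff x).2 ((hf x).1 ha)

end TreeClosed

/-- the line -/
def line : SimpleGraph ℤ where
  Adj a b := a = b + 1 ∨ b = a + 1
  symm := ⟨fun _ _ h => h.symm⟩
  loopless := ⟨fun a h => by omega⟩

theorem line_tree : line.IsTree := by
  refine isTree_of_level line Int.natAbs 0 ?_ ?_ ?_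
  · rintro u v (h | h) <;> omega
  · intro v hv
    rcases lt_trichotomy v 0 with h | h | h
    · exact ⟨v + 1, Or.inr rfl, by omega⟩
    · exact absurd h hv
    · exact ⟨v - 1, Or.inl (by omega), by omega⟩
  · rintro v u u' (h | h) (h' | h') h1 h2 <;> omega

/-- extensions by `ℤ` -/
theorem zext (hC : TreeClosed C) {G : Type} [Group G] (f : G →* Multiplicative ℤ)
    (h : C ↥f.ker) : C G := by
  let inst : MulAction G ℤ :=
    { smul := fun g n => Multiplicative.toAdd (f g) + n
      one_smul := fun n => by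
        change Multiplicative.toAdd (f 1) + n = n
        rw [map_one, toAdd_one, zero_add]
      mul_smul := fun a b n => by
        change Multiplicative.toAdd (f (a * b)) + n =
          Multiplicative.toAdd (f a) + (Multiplicative.toAdd (f b) + n)
        rw [map_mul, toAdd_mul, add_assoc] }
  have hsm : ∀ (g : G) (n : ℤ), g • n = Multiplicative.toAdd (f g) + n := fun _ _ => rfl
  refine hC.tree G ℤ line line_tree ?_ ?_ ?_
  · rintro g u v (h | h)
    · left
      rw [hsm, hsm]
      omega
    · right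
      rw [hsm, hsm]
      omega
  · rintro g u v (h | h) h1 h2
    · rw [hsm] at h1 h2
      omega
    · rw [hsm] at h1 h2
      omega
  · intro v
    refine hC.of_injective _ _ ((Subgroup.subtype _).codRestrict f.ker (fun x => ?_)) ?_ h
    · have h1 : (x : G) • v = v := x.2
      rw [hsm] at h1
      rw [MonoidHom.mem_ker]
      have h2 : Multiplicative.toAdd (f (x : G)) = 0 := by omega
      exact h2
    · intro a b hab
      exact Subtype.ext (congrArg (fun z : f.ker => (z : G)) hab)

variable {F : Type} [Field F]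

/-- the value of the determinant -/
def dz (V : DV F) : GL (Fin 2) F →* Multiplicative ℤ where
  toFun g := Multiplicative.ofAdd (V.v g.1.det)
  map_one' := by
    have := DV.v_det_one (V := V)
    rw [this]
    rfl
  map_mul' a b := by
    rw [DV.v_det_mul (V := V) a b]
    rfl

theorem mem_dz {V : DV F} {g : GL (Fin 2) F} : g ∈ (dz V).ker ↔ V.v g.1.det = 0 := by
  rw [MonoidHom.mem_ker]
  exact Iff.rfl

/-- elliptic elements -/
def Ell (V : DV F) (h : GL (Fin 2) F) : Prop := V.v h.1.det = 0 ∧ ∃ u : V.Vt, h • u = u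

theorem Ell.tr {V : DV F} {h : GL (Fin 2) F} (hh : Ell V h) : V.L 0 h.1.trace := by
  obtain ⟨hd, u, hu⟩ := hh
  obtain ⟨g, rfl⟩ := QuotientGroup.mk_surjective u
  have h3 : g⁻¹ * h * g ∈ V.S := by
    have h4 : (QuotientGroup.mk (h * g) : V.Vt) = QuotientGroup.mk g := hu
    rw [QuotientGroup.eq] at h4
    have h5 := inv_mem h4
    have e : ((h * g)⁻¹ * g)⁻¹ = g⁻¹ * h * g := by group
    rwa [e] at h5
  obtain ⟨a, h4, h5⟩ := (V.mem_S).1 h3
  rw [DV.v_det_mul, DV.v_det_mul, DV.v_det_inv, hd] at h5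
  have ha : a = 0 := by omega
  subst ha
  have h6 : (g⁻¹ * h * g).1.trace = h.1.trace := by
    have h7 : (g⁻¹ * h * g).1 = (g⁻¹).1 * h.1 * g.1 := rfl
    rw [h7, Matrix.trace_mul_comm, ← Matrix.mul_assoc]
    have h8 : g.1 * (g⁻¹).1 = 1 := Units.mul_inv g
    rw [h8, Matrix.one_mul]
  rw [← h6, Matrix.trace_fin_two]
  exact DV.L_add (h4 0 0) (h4 1 1)

/-- the induction on the valuations -/
theorem induct (hC : TreeClosed C) : ∀ (l : List (DV F)) (G : Subgroup (GL (Fin 2) F)),
    (∀ H : Subgroup (GL (Fin 2) F), H ≤ G → (∀ h ∈ H, ∀ V ∈ l, Ell V h) → C ↥H) → C ↥G := by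
  intro l
  induction l with
  | nil =>
    intro G hG
    exact hG G le_rfl (fun _ _ V hV => absurd hV (by simp))
  | cons V l ih =>
    intro G hG
    refine zext hC ((dz V).comp G.subtype) ?_
    obtain ⟨D, hD⟩ : ∃ D : Subgroup ↥G, D = ((dz V).comp G.subtype).ker := ⟨_, rfl⟩
    rw [← hD]
    have hDv : ∀ g : ↥D, V.v (g.1.1 : GL (Fin 2) F).1.det = 0 := by
      intro g
      have h2 : ∀ x : ↥G, x ∈ D → V.v (x.1 : GL (Fin 2) F).1.det = 0 := by
        intro x hx
        rw [hD] at hx
        exact hx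
      exact h2 g.1 g.2
    have hsm : ∀ (g : ↥D) (u : V.Vt), g • u = (g.1.1 : GL (Fin 2) F) • u := fun _ _ => rfl
    refine hC.tree ↥D V.Vt V.tr V.isTree (fun g u v h => V.tr_act _ u v h) ?_ ?_
    · rintro g u w ⟨x, p, hp, rfl, rfl⟩ h1 _
      rw [hsm] at h1
      have h2 : (QuotientGroup.mk ((g.1.1 : GL (Fin 2) F) * x) : V.Vt) = QuotientGroup.mk (x * p) := h1
      rw [QuotientGroup.eq] at h2
      obtain ⟨a, -, h4⟩ := (V.mem_S).1 h2
      obtain ⟨b, -, h5⟩ := hp
      rw [DV.v_det_mul, DV.v_det_inv, DV.v_det_mul, DV.v_det_mul, hDv g, h5] at h4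
      omega
    · intro u
      obtain ⟨K, hK⟩ : ∃ K : Subgroup (GL (Fin 2) F),
        K = G ⊓ (dz V).ker ⊓ MulAction.stabilizer (GL (Fin 2) F) u := ⟨_, rfl⟩
      have hKC : C ↥K := by
        apply ih K
        intro H hHK hH
        have hle : ∀ h ∈ H, h ∈ G ∧ V.v h.1.det = 0 ∧ h • u = u := by
          intro h hh
          have h1 := hHK hh
          rw [hK] at h1
          exact ⟨h1.1.1, mem_dz.1 h1.1.2, h1.2⟩
        apply hG H (fun h hh => (hle h hh).1)
        intro h hh W hW
        rcases List.mem_cons.1 hW with rfl | hW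
        · exact ⟨(hle h hh).2.1, u, (hle h hh).2.2⟩
        · exact hH h hh W hW
      refine hC.of_injective _ _ (((G.subtype.comp D.subtype).comp
        (MulAction.stabilizer (↥D) u).subtype).codRestrict K (fun x => ?_)) ?_ hKC
      · rw [hK]
        exact ⟨⟨x.1.1.2, mem_dz.2 (hDv x.1)⟩, x.2⟩
      · intro a b hab
        have h1 : (a.1.1.1 : GL (Fin 2) F) = b.1.1.1 := congrArg (fun z : ↥K => (z : GL (Fin 2) F)) hab
        exact Subtype.ext (Subtype.ext (Subtype.ext h1))

end Pool.Agent.U722.TT
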