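import Pool.Agent.U722.TT.Vl
import Pool.Agent.U709.Dom

/-!
# Finitely many discrete valuations which decide algebraicity over the constants
-/

set_option autoImplicit false

namespace Pool.Agent.U722.TT

open Pool.Agent.U709.BT
open Pool.Agent.U709 (IsDegree exists_DV)

theorem isDegree (k : Type) [Field k] (s : ℕ) :
    IsDegree (MvPolynomial.totalDegree (R := k) (σ := Fin s)) where
  mul _ _ ha hb := MvPolynomial.totalDegree_mul_of_isDomain ha hb
  add a b _ _ _ := MvPolynomial.totalDegree_add a b

/-- the degrees of the coefficients are zero -/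
theorem coeff_deg (k : Type) [Field k] (s : ℕ) (E : Type) [Field E]
    [Algebra (FractionRing (MvPolynomial (Fin s) k)) E] [Algebra (MvPolynomial (Fin s) k) E]
    [IsScalarTower (MvPolynomial (Fin s) k) (FractionRing (MvPolynomial (Fin s) k)) E]
    [FiniteDimensional (FractionRing (MvPolynomial (Fin s) k)) E]
    [Algebra.IsSeparable (FractionRing (MvPolynomial (Fin s) k)) E] :
    ∃ l : List (DV E), ∀ a : E, IsIntegral (MvPolynomial (Fin s) k) a → (∀ V ∈ l, V.L 0 a) →
      ∀ i : ℕ, ((minpoly (MvPolynomial (Fin s) k) a).coeff i).totalDegree = 0 := by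
  by_cases hnt : ∃ r : MvPolynomial (Fin s) k, r ≠ 0 ∧ r.totalDegree ≠ 0
  · obtain ⟨e, V, he, hV⟩ := exists_DV (isDegree k s) hnt
    have hdvr := Og_dvr V
    let inst : Algebra (Og V) E :=
      ((algebraMap (FractionRing (MvPolynomial (Fin s) k)) E).comp (Og V).subtype).toAlgebra
    have htow : IsScalarTower (Og V) (FractionRing (MvPolynomial (Fin s) k)) E :=
      IsScalarTower.of_algebraMap_eq (fun x => rfl)
    obtain ⟨l, hl⟩ := ded (Og V) (FractionRing (MvPolynomial (Fin s) k)) E
    refine ⟨l, fun a ha hVa i => ?_⟩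
    have h1 := minpoly.isIntegrallyClosed_eq_field_fractions'
      (FractionRing (MvPolynomial (Fin s) k)) (hl a hVa)
    have h2 := minpoly.isIntegrallyClosed_eq_field_fractions'
      (FractionRing (MvPolynomial (Fin s) k)) ha
    rw [h1] at h2
    have h3 := congrArg (fun p => p.coeff i) h2
    simp only [Polynomial.coeff_map] at h3
    by_contra hne
    have h0 : (minpoly (MvPolynomial (Fin s) k) a).coeff i ≠ 0 := by
      intro h0
      rw [h0, MvPolynomial.totalDegree_zero] at hne
      exact hne rfl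
    have h4 := hV _ h0
    rw [← h3] at h4
    have h5 := ((minpoly (Og V) a).coeff i).2
    have h6 : (((minpoly (Og V) a).coeff i).1 : FractionRing (MvPolynomial (Fin s) k)) ≠ 0 := by
      intro h6
      have h7 : algebraMap (Og V) (FractionRing (MvPolynomial (Fin s) k))
        ((minpoly (Og V) a).coeff i) = 0 := h6
      rw [h3, IsFractionRing.to_map_eq_zero_iff] at h7
      exact h0 h7
    have h7 : (0 : ℤ) ≤ V.v ((minpoly (Og V) a).coeff i).1 := h5 h6
    have h8 : (e : ℤ) * V.v ((minpoly (Og V) a).coeff i).1 =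
      - ((minpoly (MvPolynomial (Fin s) k) a).coeff i).totalDegree := h4
    have h9 : (0 : ℤ) ≤ (e : ℤ) * V.v ((minpoly (Og V) a).coeff i).1 :=
      mul_nonneg (by omega) h7
    omega
  · push Not at hnt
    refine ⟨[], fun a _ _ i => ?_⟩
    by_cases h0 : (minpoly (MvPolynomial (Fin s) k) a).coeff i = 0
    · rw [h0, MvPolynomial.totalDegree_zero]
    · exact hnt _ h0

/-- **finitely many discrete valuations which decide algebraicity over the constants** -/
theorem vals (k : Type) [Field k] (s : ℕ) (E : Type) [Field E]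
    [Algebra (FractionRing (MvPolynomial (Fin s) k)) E] [Algebra (MvPolynomial (Fin s) k) E]
    [IsScalarTower (MvPolynomial (Fin s) k) (FractionRing (MvPolynomial (Fin s) k)) E]
    [Algebra k E] [IsScalarTower k (MvPolynomial (Fin s) k) E]
    [FiniteDimensional (FractionRing (MvPolynomial (Fin s) k)) E]
    [Algebra.IsSeparable (FractionRing (MvPolynomial (Fin s) k)) E] :
    ∃ l : List (DV E), ∀ a : E, IsIntegral (MvPolynomial (Fin s) k) a → (∀ V ∈ l, V.L 0 a) →
      IsAlgebraic k a := by
  obtain ⟨l, hl⟩ := coeff_deg k s E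
  refine ⟨l, fun a ha hVa => ?_⟩
  have h1 := hl a ha hVa
  obtain ⟨p, hp⟩ : ∃ p, p = minpoly (MvPolynomial (Fin s) k) a := ⟨_, rfl⟩
  rw [← hp] at h1
  have hmon : p.Monic := by
    rw [hp]
    exact minpoly.monic ha
  have hroot : Polynomial.aeval a p = 0 := by
    rw [hp]
    exact minpoly.aeval _ _
  have h2 : (p.map (MvPolynomial.constantCoeff (R := k) (σ := Fin s))).map MvPolynomial.C = p := by
    ext1 i
    rw [Polynomial.coeff_map, Polynomial.coeff_map]
    exact (MvPolynomial.totalDegree_eq_zero_iff_eq_C.1 (h1 i)).symm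
  refine ⟨p.map (MvPolynomial.constantCoeff (R := k) (σ := Fin s)), (hmon.map _).ne_zero, ?_⟩
  obtain ⟨q, hq⟩ : ∃ q, q = p.map (MvPolynomial.constantCoeff (R := k) (σ := Fin s)) := ⟨_, rfl⟩
  rw [← hq] at h2 ⊢
  rw [← h2, Polynomial.aeval_def, Polynomial.eval₂_map] at hroot
  rw [← hroot, Polynomial.aeval_def]
  congr 1
  ext x
  exact IsScalarTower.algebraMap_apply k (MvPolynomial (Fin s) k) E x

end Pool.Agent.U722.TT
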