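import Pool.Agent.U722.TT.Bt
import Pool.Agent.U722.TT.Vm

/-!
# Matrices of degree two with entries integral over a polynomial ring
-/

set_option autoImplicit false

namespace Pool.Agent.U722.TT

open Matrix
open Pool.Agent.U709.BT

variable {C : ∀ (G : Type) [Group G], Prop}

/-- **entries integral over a polynomial ring** -/
theorem core (hC : TreeClosed C)
    {k : Type} [Field k] (hk : ∀ n : ℕ, C (GL (Fin n) k)) (s : ℕ) (E : Type) [Field E]
    [Algebra (FractionRing (MvPolynomial (Fin s) k)) E] [Algebra (MvPolynomial (Fin s) k) E]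
    [IsScalarTower (MvPolynomial (Fin s) k) (FractionRing (MvPolynomial (Fin s) k)) E]
    [Algebra k E] [IsScalarTower k (MvPolynomial (Fin s) k) E]
    [FiniteDimensional (FractionRing (MvPolynomial (Fin s) k)) E]
    [Algebra.IsSeparable (FractionRing (MvPolynomial (Fin s) k)) E]
    (G : Subgroup (GL (Fin 2) E))
    (hG : ∀ g ∈ G, ∀ i j, IsIntegral (MvPolynomial (Fin s) k) (g.1 i j)) : C ↥G := by
  obtain ⟨l, hl⟩ := vals k s E
  refine induct hC l G ?_
  intro H hHG hH
  have hK : ∀ n : ℕ, C (GL (Fin n) ↥(algebraicClosure k E)) := fun n =>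
    GL_alg (F := k) (K := ↥(algebraicClosure k E)) hC hk n
  refine base hC hK H ?_
  intro h hh
  have h1 : IsAlgebraic k h.1.trace := by
    refine hl _ ?_ (fun V hV => Ell.tr (hH h hh V hV))
    rw [Matrix.trace_fin_two]
    exact (hG h (hHG hh) 0 0).add (hG h (hHG hh) 1 1)
  exact ⟨⟨h.1.trace, mem_algebraicClosure_iff.2 h1⟩, rfl⟩

end Pool.Agent.U722.TT
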