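import Pool.Agent.U722.TT.Co
import Pool.Agent.U709.Fld

/-!
# Matrices of degree two with entries integral over a polynomial ring: inseparable extensions
-/

set_option autoImplicit false

namespace Pool.Agent.U722.TT

open Matrix
open Pool.Agent.U709.BT

variable {C : ∀ (G : Type) [Group G], Prop}

theorem core' (hC : TreeClosed C)
    {k : Type} [Field k] (hk : ∀ n : ℕ, C (GL (Fin n) k)) (s : ℕ) (E : Type) [Field E]
    [Algebra (FractionRing (MvPolynomial (Fin s) k)) E] [Algebra (MvPolynomial (Fin s) k) E]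
    [IsScalarTower (MvPolynomial (Fin s) k) (FractionRing (MvPolynomial (Fin s) k)) E]
    [Algebra k E] [IsScalarTower k (MvPolynomial (Fin s) k) E]
    [FiniteDimensional (FractionRing (MvPolynomial (Fin s) k)) E]
    (G : Subgroup (GL (Fin 2) E))
    (hG : ∀ g ∈ G, ∀ i j, IsIntegral (MvPolynomial (Fin s) k) (g.1 i j)) : C ↥G := by
  have hpi : IsPurelyInseparable ↥(separableClosure (FractionRing (MvPolynomial (Fin s) k)) E) E :=
    inferInstance
  have hsep : Algebra.IsSeparable (FractionRing (MvPolynomial (Fin s) k))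
    ↥(separableClosure (FractionRing (MvPolynomial (Fin s) k)) E) := inferInstance
  obtain ⟨S, hSd⟩ : ∃ S : IntermediateField (FractionRing (MvPolynomial (Fin s) k)) E,
    S = separableClosure (FractionRing (MvPolynomial (Fin s) k)) E := ⟨_, rfl⟩
  rw [← hSd] at hpi hsep
  clear hSd
  have hfdS : FiniteDimensional ↥S E := inferInstance
  have hfdL : FiniteDimensional (FractionRing (MvPolynomial (Fin s) k)) ↥S := inferInstance
  obtain ⟨q, hq⟩ := ExpChar.exists ↥S
  have hexp : IsPurelyInseparable.HasExponent ↥S E := inferInstance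
  let φ : E →+* ↥S := IsPurelyInseparable.iterateFrobenius ↥S E q le_rfl
  have hφ : ∀ a, algebraMap ↥S E (φ a) = a ^ q ^ IsPurelyInseparable.exponent ↥S E :=
    IsPurelyInseparable.algebraMap_iterateFrobenius ↥S q le_rfl
  let i1 : Algebra (MvPolynomial (Fin s) k) ↥S :=
    ((algebraMap (FractionRing (MvPolynomial (Fin s) k)) ↥S).comp
      (algebraMap (MvPolynomial (Fin s) k) (FractionRing (MvPolynomial (Fin s) k)))).toAlgebra
  let i2 : Algebra k ↥S :=
    ((algebraMap (MvPolynomial (Fin s) k) ↥S).comp (algebraMap k (MvPolynomial (Fin s) k))).toAlgebra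
  have t1 : IsScalarTower (MvPolynomial (Fin s) k) (FractionRing (MvPolynomial (Fin s) k)) ↥S :=
    IsScalarTower.of_algebraMap_eq (fun _ => rfl)
  have t2 : IsScalarTower k (MvPolynomial (Fin s) k) ↥S :=
    IsScalarTower.of_algebraMap_eq (fun _ => rfl)
  have t3 : IsScalarTower (MvPolynomial (Fin s) k) ↥S E :=
    IsScalarTower.of_algebraMap_eq (fun x =>
      IsScalarTower.algebraMap_apply (MvPolynomial (Fin s) k)
        (FractionRing (MvPolynomial (Fin s) k)) E x)
  have hint : ∀ a : E, IsIntegral (MvPolynomial (Fin s) k) a →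
      IsIntegral (MvPolynomial (Fin s) k) (φ a) := by
    intro a ha
    have h1 : IsIntegral (MvPolynomial (Fin s) k) (algebraMap ↥S E (φ a)) := by
      rw [hφ]
      exact ha.pow _
    exact (isIntegral_algebraMap_iff (algebraMap ↥S E).injective).1 h1
  have hG' : C ↥(G.map (GeneralLinearGroup.map (n := Fin 2) φ)) := by
    refine core (k := k) hC hk s ↥S _ ?_
    rintro _ ⟨x, hx, rfl⟩ i j
    exact hint _ (hG x hx i j)
  refine hC.of_injective _ _ (((GeneralLinearGroup.map (n := Fin 2) φ).comp
    G.subtype).codRestrict (G.map (GeneralLinearGroup.map (n := Fin 2) φ))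
    (fun x => ⟨x.1, x.2, rfl⟩)) ?_ hG'
  intro a b hab
  have h1 : GeneralLinearGroup.map (n := Fin 2) φ a.1 = GeneralLinearGroup.map (n := Fin 2) φ b.1 :=
    congrArg Subtype.val hab
  exact Subtype.ext (Pool.Agent.U709.map_inj φ φ.injective h1)

end Pool.Agent.U722.TT
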