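import Pool.Agent.U722.TT.Cp

/-!
# Domains of finite type over a field, and fields
-/

set_option autoImplicit false

namespace Pool.Agent.U722.TT

open Matrix
open Pool.Agent.U709.BT

variable {C : ∀ (G : Type) [Group G], Prop}

attribute [local instance] FractionRing.liftAlgebra

/-- **domains of finite type over a field** -/
theorem ft (hC : TreeClosed C)
    {k : Type} [Field k] (hk : ∀ n : ℕ, C (GL (Fin n) k)) (R : Type) [CommRing R] [IsDomain R]
    [Algebra k R] [Algebra.FiniteType k R] : C (GL (Fin 2) R) := by
  obtain ⟨s, g, hginj, hgfin⟩ := exists_finite_inj_algHom_of_fg k R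
  let i1 : Algebra (MvPolynomial (Fin s) k) R := g.toRingHom.toAlgebra
  have t1 : IsScalarTower k (MvPolynomial (Fin s) k) R :=
    IsScalarTower.of_algebraMap_eq (fun x => (g.commutes x).symm)
  have hfin : Module.Finite (MvPolynomial (Fin s) k) R := hgfin
  have hff : FaithfulSMul (MvPolynomial (Fin s) k) R :=
    (faithfulSMul_iff_algebraMap_injective _ _).2 hginj
  have htf : Module.IsTorsionFree (MvPolynomial (Fin s) k) R := inferInstance
  have t2 : IsScalarTower k (MvPolynomial (Fin s) k) (FractionRing R) := inferInstance
  have hfd : FiniteDimensional (FractionRing (MvPolynomial (Fin s) k)) (FractionRing R) := inferInstance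
  have hG : C ↥(GeneralLinearGroup.map (n := Fin 2) (algebraMap R (FractionRing R))).range := by
    refine core' (k := k) hC hk s (FractionRing R) _ ?_
    rintro _ ⟨x, rfl⟩ i j
    exact (Algebra.IsIntegral.isIntegral (R := MvPolynomial (Fin s) k) (x.1 i j)).algebraMap
  refine hC.of_injective _ _
    (GeneralLinearGroup.map (n := Fin 2) (algebraMap R (FractionRing R))).rangeRestrict ?_ hG
  intro a b hab
  exact Pool.Agent.U709.map_inj _ (IsFractionRing.injective R (FractionRing R))
    (congrArg Subtype.val hab)

end Pool.Agent.U722.TT
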