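import Pool.Agent.U722.TT.Cl

/-!
# Linear groups over algebraic extensions (the proofs are those of helper293, `U293.GE.Fld`)
-/

set_option autoImplicit false

namespace Pool.Agent.U722.TT

variable {C : ∀ (G : Type) [Group G], Prop}

section

variable {F K : Type} [Field F] [Field K] [Algebra F K]

/-- `GL_n(k) → GL_n(K)` -/
noncomputable def glMap (k : IntermediateField F K) (n : ℕ) :
    Matrix.GeneralLinearGroup (Fin n) k →* Matrix.GeneralLinearGroup (Fin n) K :=
  Units.map ((algebraMap k K).mapMatrix (m := Fin n)).toMonoidHom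

theorem glMap_apply (k : IntermediateField F K) (n : ℕ) (g : Matrix.GeneralLinearGroup (Fin n) k)
    (i j : Fin n) : (glMap k n g : Matrix (Fin n) (Fin n) K) i j =
      ((g : Matrix (Fin n) (Fin n) k) i j : K) := rfl

theorem glMap_inj (k : IntermediateField F K) (n : ℕ) : Function.Injective (glMap k n) := by
  intro a b hab
  apply Units.ext
  ext i j
  rw [← glMap_apply, ← glMap_apply, hab]

theorem mem_range_glMap (k : IntermediateField F K) (n : ℕ)
    (g : Matrix.GeneralLinearGroup (Fin n) K)
    (h1 : ∀ i j, (g : Matrix (Fin n) (Fin n) K) i j ∈ k)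
    (h2 : ∀ i j, ((g⁻¹ : Matrix.GeneralLinearGroup (Fin n) K) : Matrix (Fin n) (Fin n) K) i j ∈ k) :
    g ∈ (glMap k n).range := by
  let M : Matrix (Fin n) (Fin n) k := fun i j => ⟨_, h1 i j⟩
  let M' : Matrix (Fin n) (Fin n) k := fun i j => ⟨_, h2 i j⟩
  have e : ∀ A B : Matrix (Fin n) (Fin n) k,
      A.map (algebraMap k K) * B.map (algebraMap k K) = 1 → A * B = 1 := by
    intro A B hAB
    rw [← Matrix.map_mul] at hAB
    apply Matrix.map_injective (algebraMap k K).injective
    exact hAB.trans (Matrix.map_one _ (map_zero _) (map_one _)).symm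
  refine ⟨⟨M, M', e M M' ?_, e M' M ?_⟩, ?_⟩
  · exact g.mul_inv
  · exact g.inv_mul
  · apply Units.ext
    rfl

/-- the reduction to finitely generated subfields -/
theorem GL_of_sub (hC : TreeClosed C) (n : ℕ)
    (h : ∀ S : Finset K, ∃ k : IntermediateField F K, (S : Set K) ⊆ k ∧
      C (Matrix.GeneralLinearGroup (Fin n) k)) : C (Matrix.GeneralLinearGroup (Fin n) K) := by
  classical
  refine hC.of_fg fun H hH => ?_
  obtain ⟨T, hT⟩ := (Group.fg_iff_subgroup_fg _).1 hH
  let ent : Matrix.GeneralLinearGroup (Fin n) K → Finset K := fun g =>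
    (Finset.univ : Finset (Fin n × Fin n)).image (fun p => (g : Matrix (Fin n) (Fin n) K) p.1 p.2) ∪
    (Finset.univ : Finset (Fin n × Fin n)).image
      (fun p => ((g⁻¹ : Matrix.GeneralLinearGroup (Fin n) K) : Matrix (Fin n) (Fin n) K) p.1 p.2)
  obtain ⟨k, hk, hCk⟩ := h (T.biUnion ent)
  have hle : H ≤ (glMap k n).range := by
    rw [← hT, Subgroup.closure_le]
    intro g hg
    refine mem_range_glMap k n g (fun i j => hk ?_) (fun i j => hk ?_)
    · rw [Finset.mem_coe, Finset.mem_biUnion]
      exact ⟨g, hg, Finset.mem_union_left _ (Finset.mem_image.2 ⟨(i, j), Finset.mem_univ _, rfl⟩)⟩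
    · rw [Finset.mem_coe, Finset.mem_biUnion]
      exact ⟨g, hg, Finset.mem_union_right _ (Finset.mem_image.2 ⟨(i, j), Finset.mem_univ _, rfl⟩)⟩
  exact hC.le hle (hC.of_injective _ _ (MonoidHom.ofInjective (glMap_inj k n)).symm.toMonoidHom
    (MonoidHom.ofInjective (glMap_inj k n)).symm.injective hCk)

/-- restriction of scalars -/
theorem GL_fd (hC : TreeClosed C) (hGL : ∀ n : ℕ, C (Matrix.GeneralLinearGroup (Fin n) F))
    (L : Type) [Field L] [Algebra F L] [FiniteDimensional F L] (n : ℕ) :
    C (Matrix.GeneralLinearGroup (Fin n) L) := by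
  let b := Module.finBasis F (Fin n → L)
  let e : (Module.End F (Fin n → L))ˣ ≃* Matrix.GeneralLinearGroup
      (Fin (Module.finrank F (Fin n → L))) F :=
    Units.mapEquiv (LinearMap.toMatrixAlgEquiv b).toMulEquiv
  let ρ0 : Matrix (Fin n) (Fin n) L →* Module.End F (Fin n → L) :=
    { toFun := fun M => (Matrix.mulVecLin M).restrictScalars F
      map_one' := by
        apply LinearMap.ext
        intro v
        change (1 : Matrix (Fin n) (Fin n) L).mulVec v = v
        rw [Matrix.one_mulVec]
      map_mul' := fun M N => by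
        apply LinearMap.ext
        intro v
        change (M * N).mulVec v = M.mulVec (N.mulVec v)
        rw [Matrix.mulVec_mulVec] }
  refine hC.of_injective _ _ (e.toMonoidHom.comp (Units.map ρ0)) ?_ (hGL _)
  intro x y hxy
  have h1 : Units.map ρ0 x = Units.map ρ0 y := e.injective hxy
  have h2 : ρ0 (x : Matrix (Fin n) (Fin n) L) = ρ0 (y : Matrix (Fin n) (Fin n) L) :=
    congrArg Units.val h1
  apply Units.ext
  ext i j
  have h3 := congrArg (fun f : Module.End F (Fin n → L) => f (Pi.single j 1) i) h2
  change (x : Matrix (Fin n) (Fin n) L).mulVec (Pi.single j 1) i =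
    (y : Matrix (Fin n) (Fin n) L).mulVec (Pi.single j 1) i at h3
  rwa [Matrix.mulVec_single_one, Matrix.mulVec_single_one] at h3

theorem GL_alg (hC : TreeClosed C) (hGL : ∀ n : ℕ, C (Matrix.GeneralLinearGroup (Fin n) F))
    [Algebra.IsAlgebraic F K] (n : ℕ) : C (Matrix.GeneralLinearGroup (Fin n) K) := by
  refine GL_of_sub (F := F) hC n fun S => ?_
  refine ⟨IntermediateField.adjoin F (S : Set K), IntermediateField.subset_adjoin F _, ?_⟩
  have : Finite (S : Set K) := S.finite_toSet
  have hfd : FiniteDimensional F (IntermediateField.adjoin F (S : Set K)) :=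
    IntermediateField.finiteDimensional_adjoin fun x _ =>
      (Algebra.IsAlgebraic.isAlgebraic x).isIntegral
  exact GL_fd hC hGL _ n

end

/-- the unit group of a finite-dimensional algebra -/
theorem fin_alg (hC : TreeClosed C) {k : Type} [Field k]
    (hk : ∀ n : ℕ, C (Matrix.GeneralLinearGroup (Fin n) k))
    (A : Type) [Ring A] [Algebra k A] [Module.Finite k A] : C Aˣ := by
  let b := Module.finBasis k A
  refine hC.of_injective _ _ (Units.map (Algebra.leftMulMatrix b).toMonoidHom) ?_
    (hk (Module.finrank k A))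
  intro x y hxy
  apply Units.ext
  exact Algebra.leftMulMatrix_injective b (congrArg Units.val hxy)

end Pool.Agent.U722.TT
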