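import Pool.Agent.U722.TT.Cl

/-!
# Groups of automorphisms of polynomial rings: reduction modulo ideals
-/

set_option autoImplicit false

namespace Pool.Agent.U722.TT

open MvPolynomial (X map coeff)

/-- the group of the automorphisms of the `R`-algebra `R[x_1, ..., x_n]` -/
abbrev PA (n : ℕ) (R : Type) [CommRing R] : Type :=
  MvPolynomial (Fin n) R ≃ₐ[R] MvPolynomial (Fin n) R

section bc

variable {n : ℕ} {R S : Type} [CommRing R] [CommRing S]

/-- base change, as an endomorphism -/
noncomputable def bcA (φ : R →+* S) (g : PA n R) :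
    MvPolynomial (Fin n) S →ₐ[S] MvPolynomial (Fin n) S :=
  MvPolynomial.aeval (fun i => map φ (g (X i)))

theorem bcA_map (φ : R →+* S) (g : PA n R) (P : MvPolynomial (Fin n) R) :
    bcA φ g (map φ P) = map φ (g P) := by
  have h : ((bcA φ g).toRingHom.comp (map φ)) = (map φ).comp (g : _ →+* _) := by
    apply MvPolynomial.ringHom_ext
    · intro r
      change bcA φ g (map φ (MvPolynomial.C r)) = map φ (g (MvPolynomial.C r))
      rw [MvPolynomial.map_C]
      have h1 : g (MvPolynomial.C r) = MvPolynomial.C r := g.commutes r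
      have h2 : bcA φ g (MvPolynomial.C (φ r)) = MvPolynomial.C (φ r) := (bcA φ g).commutes (φ r)
      rw [h1, h2, MvPolynomial.map_C]
    · intro i
      change bcA φ g (map φ (X i)) = map φ (g (X i))
      rw [MvPolynomial.map_X]
      exact MvPolynomial.aeval_X _ i
  exact DFunLike.congr_fun h P

/-- base change, as a homomorphism to the monoid of endomorphisms -/
noncomputable def bcE (φ : R →+* S) :
    PA n R →* (MvPolynomial (Fin n) S →ₐ[S] MvPolynomial (Fin n) S) where
  toFun := bcA φ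
  map_one' := by
    apply MvPolynomial.algHom_ext
    intro i
    change bcA φ (1 : PA n R) (X i) = X i
    rw [← MvPolynomial.map_X φ i, bcA_map]
    rfl
  map_mul' := fun g h => by
    apply MvPolynomial.algHom_ext
    intro i
    change bcA φ (g * h) (X i) = bcA φ g (bcA φ h (X i))
    rw [← MvPolynomial.map_X φ i, bcA_map, bcA_map, bcA_map]
    rfl

/-- base change of automorphisms of polynomial rings -/
noncomputable def bc (φ : R →+* S) : PA n R →* PA n S :=
  (AlgEquiv.algHomUnitsEquiv S (MvPolynomial (Fin n) S)).toMonoidHom.comp (bcE φ).toHomUnits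

theorem bc_map (φ : R →+* S) (g : PA n R) (P : MvPolynomial (Fin n) R) :
    bc φ g (map φ P) = map φ (g P) := bcA_map φ g P

theorem bc_X (φ : R →+* S) (g : PA n R) (i : Fin n) : bc φ g (X i) = map φ (g (X i)) := by
  rw [← MvPolynomial.map_X φ i, bc_map]

theorem PA_ext {g h : PA n R} (H : ∀ i, g (X i) = h (X i)) : g = h := by
  apply AlgEquiv.coe_toAlgHom_injective
  apply MvPolynomial.algHom_ext
  exact H

end bc

section V

variable {n : ℕ} {R : Type} [CommRing R]

theorem gI (g : PA n R) (J : Ideal R) {P : MvPolynomial (Fin n) R}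
    (hP : P ∈ Ideal.map MvPolynomial.C J) : g P ∈ Ideal.map MvPolynomial.C J := by
  refine Submodule.span_induction (p := fun P _ => g P ∈ Ideal.map MvPolynomial.C J) ?_ ?_ ?_ ?_ hP
  · rintro _ ⟨r, hr, rfl⟩
    have h1 : g (MvPolynomial.C r) = MvPolynomial.C r := g.commutes r
    rw [h1]
    exact Ideal.mem_map_of_mem _ hr
  · rw [map_zero]
    exact zero_mem _
  · intro x y _ _ hx hy
    rw [map_add]
    exact add_mem hx hy
  · intro a x _ hx
    rw [smul_eq_mul, map_mul]
    exact Ideal.mul_mem_left _ _ hx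

/-- automorphisms which are trivial modulo `J` -/
def Vj (n : ℕ) (J : Ideal R) : Subgroup (PA n R) where
  carrier := {g | ∀ P, g P - P ∈ Ideal.map MvPolynomial.C J}
  one_mem' P := by
    have : (1 : PA n R) P - P = 0 := sub_self P
    rw [this]
    exact zero_mem _
  mul_mem' {g h} hg hh P := by
    have : (g * h) P - P = (g (h P) - h P) + (h P - P) := by
      rw [AlgEquiv.mul_apply]
      ring
    rw [this]
    exact add_mem (hg _) (hh _)
  inv_mem' {g} hg P := by
    have h1 := hg (g⁻¹ P)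
    have h2 : g (g⁻¹ P) = P := g.apply_symm_apply P
    rw [h2] at h1
    have : g⁻¹ P - P = -(P - g⁻¹ P) := by ring
    rw [this]
    exact neg_mem h1

theorem mem_Vj {J : Ideal R} {g : PA n R} :
    g ∈ Vj n J ↔ ∀ P, g P - P ∈ Ideal.map MvPolynomial.C J := Iff.rfl

theorem mem_Vj_X {J : Ideal R} {g : PA n R} :
    g ∈ Vj n J ↔ ∀ i, g (X i) - X i ∈ Ideal.map MvPolynomial.C J := by
  refine ⟨fun h i => h _, fun h P => ?_⟩
  induction P using MvPolynomial.induction_on with
  | C r =>
    have h1 : g (MvPolynomial.C r) = MvPolynomial.C r := g.commutes r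
    rw [h1, sub_self]
    exact zero_mem _
  | add p q hp hq =>
    have : g (p + q) - (p + q) = (g p - p) + (g q - q) := by
      rw [map_add]
      ring
    rw [this]
    exact add_mem hp hq
  | mul_X p i hp =>
    have : g (p * X i) - p * X i = g p * (g (X i) - X i) + (g p - p) * X i := by
      rw [map_mul]
      ring
    rw [this]
    exact add_mem (Ideal.mul_mem_left _ _ (h i)) (Ideal.mul_mem_right _ _ hp)

theorem mem_Vj_coeff {J : Ideal R} {g : PA n R} :
    g ∈ Vj n J ↔ ∀ i m, coeff m (g (X i) - X i) ∈ J := by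
  rw [mem_Vj_X]
  exact forall_congr' fun i => MvPolynomial.mem_map_C_iff

instance (J : Ideal R) : (Vj n J).Normal := by
  refine ⟨fun h hh g P => ?_⟩
  have h1 : (g * h * g⁻¹) P - P = g (h (g⁻¹ P) - g⁻¹ P) := by
    rw [map_sub]
    have h2 : g (g⁻¹ P) = P := g.apply_symm_apply P
    rw [h2]
    rfl
  rw [h1]
  exact gI g J (hh _)

theorem Vj_mono {J J' : Ideal R} (h : J ≤ J') : Vj n J ≤ Vj n J' := fun _ hg =>
  mem_Vj_coeff.2 fun i m => h (mem_Vj_coeff.1 hg i m)

theorem Vj_inf (J J' : Ideal R) : Vj n (J ⊓ J') = Vj n J ⊓ Vj n J' := by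
  ext g
  rw [Subgroup.mem_inf, mem_Vj_coeff, mem_Vj_coeff, mem_Vj_coeff]
  exact ⟨fun h => ⟨fun i m => (h i m).1, fun i m => (h i m).2⟩, fun h i m => ⟨h.1 i m, h.2 i m⟩⟩

theorem Vj_deep {J : Ideal R} {g : PA n R} (hg : g ∈ Vj n J) {P : MvPolynomial (Fin n) R}
    (hP : P ∈ Ideal.map MvPolynomial.C J) : g P - P ∈ Ideal.map MvPolynomial.C (J * J) := by
  rw [Ideal.map_mul]
  refine Submodule.span_induction (p := fun P _ => g P - P ∈
    Ideal.map MvPolynomial.C J * Ideal.map MvPolynomial.C J) ?_ ?_ ?_ ?_ hP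
  · rintro _ ⟨r, hr, rfl⟩
    have h1 : g (MvPolynomial.C r) = MvPolynomial.C r := g.commutes r
    rw [h1, sub_self]
    exact zero_mem _
  · rw [map_zero, sub_zero]
    exact zero_mem _
  · intro x y _ _ hx hy
    have : g (x + y) - (x + y) = (g x - x) + (g y - y) := by
      rw [map_add]
      ring
    rw [this]
    exact add_mem hx hy
  · intro a x hxm hx
    have : g (a • x) - a • x = g a * (g x - x) + (g a - a) * x := by
      rw [smul_eq_mul, map_mul]
      ring
    rw [this]
    exact add_mem (Ideal.mul_mem_left _ _ hx) (Ideal.mul_mem_mul (hg a) hxm)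

theorem Vj_comm {J J' : Ideal R} (hJ : J * J ≤ J') {g h : PA n R} (hg : g ∈ Vj n J)
    (hh : h ∈ Vj n J) : g * h * g⁻¹ * h⁻¹ ∈ Vj n J' := by
  refine Vj_mono hJ ?_
  intro P
  obtain ⟨Q, hQ⟩ : ∃ Q, Q = (h * g)⁻¹ P := ⟨_, rfl⟩
  have hPQ : P = h (g Q) := by
    rw [hQ]
    exact ((h * g).apply_symm_apply P).symm
  have e : g * h * g⁻¹ * h⁻¹ = g * h * (h * g)⁻¹ := by group
  have h1 : (g * h * g⁻¹ * h⁻¹) P = g (h Q) := by
    rw [e, hQ]
    rfl
  rw [h1]
  have h2 : g (h Q) - P = (g (h Q - Q) - (h Q - Q)) - (h (g Q - Q) - (g Q - Q)) := by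
    rw [map_sub, map_sub, ← hPQ]
    ring
  rw [h2]
  exact sub_mem (Vj_deep hg (hh Q)) (Vj_deep hh (hg Q))

theorem Vj_bot : Vj n (⊥ : Ideal R) = ⊥ := by
  rw [eq_bot_iff]
  intro g hg
  rw [Subgroup.mem_bot]
  apply PA_ext
  intro i
  have h := mem_Vj_X.1 hg i
  rw [Ideal.map_bot, Ideal.mem_bot] at h
  exact sub_eq_zero.1 h

theorem Vj_top : Vj n (⊤ : Ideal R) = ⊤ := by
  rw [eq_top_iff]
  intro g _
  exact mem_Vj_coeff.2 fun _ _ => Submodule.mem_top

theorem bc_ker {S : Type} [CommRing S] (φ : R →+* S) (g : PA n R) :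
    bc φ g = 1 ↔ g ∈ Vj n (RingHom.ker φ) := by
  rw [mem_Vj_coeff]
  constructor
  · intro h i m
    have h1 : map φ (g (X i)) = X i := by
      rw [← bc_X, h]
      rfl
    rw [RingHom.mem_ker, ← MvPolynomial.coeff_map, map_sub, h1, MvPolynomial.map_X, sub_self,
      MvPolynomial.coeff_zero]
  · intro h
    apply PA_ext
    intro i
    rw [bc_X]
    change map φ (g (X i)) = X i
    rw [← sub_eq_zero, ← MvPolynomial.map_X φ i, ← map_sub]
    ext m
    rw [MvPolynomial.coeff_map, MvPolynomial.coeff_zero]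
    exact h i m

end V

end Pool.Agent.U722.TT
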