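import Pool.Agent.U722.TT.Pa

/-!
# Groups of automorphisms of polynomial rings: reduction to fields
-/

set_option autoImplicit false

namespace Pool.Agent.U722.TT

open MvPolynomial (X map coeff)

variable {C : ∀ (G : Type) [Group G], Prop}

theorem quot_congr {Γ : Type} [Group Γ] {K K' : Subgroup Γ} [K.Normal] [K'.Normal] (h : K = K')
    (hK : C (Γ ⧸ K)) : C (Γ ⧸ K') := by
  subst h
  exact hK

section R0

variable {n : ℕ} {R : Type} [CommRing R]

/-- polynomials with coefficients in a subring -/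
noncomputable def SB (n : ℕ) (B : Subring R) : Subring (MvPolynomial (Fin n) R) :=
  (map B.subtype).range

theorem mem_SB {B : Subring R} {P : MvPolynomial (Fin n) R} : P ∈ SB n B ↔ ∀ m, coeff m P ∈ B := by
  constructor
  · rintro ⟨Q, rfl⟩ m
    rw [MvPolynomial.coeff_map]
    exact (coeff m Q).2
  · intro h
    have h1 : P ∈ Set.range (map B.subtype) := by
      rw [MvPolynomial.mem_range_map_iff_coeffs_subset]
      intro x hx
      rw [Finset.mem_coe, MvPolynomial.mem_coeffs_iff] at hx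
      obtain ⟨m, -, rfl⟩ := hx
      exact ⟨⟨_, h m⟩, rfl⟩
    exact h1

theorem SB_stable {B : Subring R} {g : PA n R} (hg : ∀ i, g (X i) ∈ SB n B)
    {P : MvPolynomial (Fin n) R} (hP : P ∈ SB n B) : g P ∈ SB n B := by
  obtain ⟨Q, rfl⟩ := hP
  induction Q using MvPolynomial.induction_on with
  | C r =>
    rw [MvPolynomial.map_C]
    have h1 : g (MvPolynomial.C (B.subtype r)) = MvPolynomial.C (B.subtype r) := g.commutes _
    rw [h1, ← MvPolynomial.map_C]
    exact ⟨_, rfl⟩
  | add p q hp hq =>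
    rw [map_add, map_add]
    exact add_mem hp hq
  | mul_X p i hp =>
    rw [map_mul, map_mul, MvPolynomial.map_X]
    exact mul_mem hp (hg i)

/-- automorphisms with coefficients in a subring -/
noncomputable def DB (n : ℕ) (B : Subring R) : Subgroup (PA n R) where
  carrier := {g | (∀ i, g (X i) ∈ SB n B) ∧ ∀ i, g⁻¹ (X i) ∈ SB n B}
  one_mem' := by
    have h : ∀ i, (X i : MvPolynomial (Fin n) R) ∈ SB n B := fun i => ⟨X i, MvPolynomial.map_X _ i⟩
    refine ⟨fun i => h i, fun i => ?_⟩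
    rw [inv_one]
    exact h i
  mul_mem' {g h} hg hh := by
    refine ⟨fun i => SB_stable hg.1 (hh.1 i), fun i => ?_⟩
    rw [mul_inv_rev]
    exact SB_stable hh.2 (hg.2 i)
  inv_mem' {g} hg := by
    refine ⟨hg.2, fun i => ?_⟩
    rw [inv_inv]
    exact hg.1 i

theorem fg_DB (H : Subgroup (PA n R)) (hH : H.FG) :
    ∃ S : Finset R, ∀ B : Subring R, (∀ x ∈ S, x ∈ B) → H ≤ DB n B := by
  classical
  obtain ⟨T, hT⟩ := hH
  refine ⟨T.biUnion (fun g => Finset.univ.biUnion (fun i : Fin n =>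
    (g (X i)).coeffs ∪ (g⁻¹ (X i)).coeffs)), fun B hB => ?_⟩
  rw [← hT, Subgroup.closure_le]
  intro g hg
  have key : ∀ P : MvPolynomial (Fin n) R, (∀ x ∈ P.coeffs, x ∈ B) → P ∈ SB n B := by
    intro P hP
    rw [mem_SB]
    intro m
    by_cases h0 : coeff m P = 0
    · rw [h0]
      exact zero_mem _
    · exact hP _ (MvPolynomial.coeff_mem_coeffs m h0)
  refine ⟨fun i => key _ fun x hx => hB x ?_, fun i => key _ fun x hx => hB x ?_⟩
  · rw [Finset.mem_biUnion]
    refine ⟨g, hg, ?_⟩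
    rw [Finset.mem_biUnion]
    exact ⟨i, Finset.mem_univ _, Finset.mem_union_left _ hx⟩
  · rw [Finset.mem_biUnion]
    refine ⟨g, hg, ?_⟩
    rw [Finset.mem_biUnion]
    exact ⟨i, Finset.mem_univ _, Finset.mem_union_right _ hx⟩

end R0

variable {n : ℕ} {R : Type} [CommRing R]

/-- the residue field -/
noncomputable def rf (J : Ideal R) : R →+* FractionRing (R ⧸ J) :=
  (algebraMap (R ⧸ J) (FractionRing (R ⧸ J))).comp (Ideal.Quotient.mk J)

theorem rf_ker (J : Ideal R) [J.IsPrime] : RingHom.ker (rf J) = J := by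
  ext x
  rw [RingHom.mem_ker]
  change algebraMap (R ⧸ J) (FractionRing (R ⧸ J)) (Ideal.Quotient.mk J x) = 0 ↔ _
  rw [IsFractionRing.to_map_eq_zero_iff, Ideal.Quotient.eq_zero_iff_mem]

theorem prime_step (hC : TreeClosed C) (Γ : Subgroup (PA n R)) (J : Ideal R) [J.IsPrime]
    (h : C ↥(Γ.map (bc (rf J)))) : C (↥Γ ⧸ (Vj n J).subgroupOf Γ) := by
  let ψ := (bc (n := n) (rf J)).subgroupMap Γ
  have hψ : ∀ x : ↥Γ, ψ x = 1 ↔ x ∈ (Vj n J).subgroupOf Γ := by
    intro x
    rw [Subgroup.mem_subgroupOf]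
    have h1 := bc_ker (rf J) x.1
    rw [rf_ker] at h1
    rw [← h1]
    exact ⟨fun h2 => congrArg Subtype.val h2, fun h2 => Subtype.ext h2⟩
  refine hC.of_injective _ _ (QuotientGroup.lift _ ψ (fun x hx => (hψ x).2 hx)) ?_ h
  rw [injective_iff_map_eq_one]
  intro a ha
  obtain ⟨x, rfl⟩ := QuotientGroup.mk_surjective a
  exact (QuotientGroup.eq_one_iff x).2 ((hψ x).1 ha)

theorem primes_step (hC : TreeClosed C) (Γ : Subgroup (PA n R)) (t : Finset (Ideal R))
    (ht : ∀ J ∈ t, J.IsPrime) (h : ∀ J ∈ t, C ↥(Γ.map (bc (rf J)))) :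
    C (↥Γ ⧸ (Vj n (t.inf id)).subgroupOf Γ) := by
  classical
  induction t using Finset.induction_on with
  | empty =>
    have h2 : Subsingleton (↥Γ ⧸ (Vj n ((∅ : Finset (Ideal R)).inf id)).subgroupOf Γ) := by
      rw [Finset.inf_empty, Vj_top, Subgroup.top_subgroupOf]
      exact QuotientGroup.subsingleton_quotient_top
    exact hC.fin _
  | insert J t _ ih =>
    have hJ : J.IsPrime := ht J (Finset.mem_insert_self _ _)
    refine hC.inf_quot ((Vj n J).subgroupOf Γ) ((Vj n (t.inf id)).subgroupOf Γ) _ ?_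
      (prime_step hC Γ J (h J (Finset.mem_insert_self _ _)))
      (ih (fun K hK => ht K (Finset.mem_insert_of_mem hK))
        (fun K hK => h K (Finset.mem_insert_of_mem hK)))
    rw [Finset.inf_insert, id, Vj_inf]
    rfl

theorem fg_step (hC : TreeClosed C) (Γ : Subgroup (PA n R)) (hΓ : Γ.FG)
    (h : ∀ J : Ideal R, J.IsPrime → C ↥(Γ.map (bc (rf J)))) : C ↥Γ := by
  classical
  obtain ⟨S, hS⟩ := fg_DB Γ hΓ
  obtain ⟨B, hB⟩ : ∃ B, B = Subring.closure (S : Set R) := ⟨_, rfl⟩
  have hD : Γ ≤ DB n B := hS B (fun x hx => by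
    rw [hB]
    exact Subring.subset_closure hx)
  have hnoeth : IsNoetherianRing ↥B := by
    rw [hB]
    exact is_noetherian_subring_closure _ S.finite_toSet
  obtain ⟨m, hm⟩ := IsNoetherianRing.isNilpotent_nilradical ↥B
  have hfin := minimalPrimes.finite_of_isNoetherianRing ↥B
  have hex : ∀ p : Ideal ↥B, p ∈ minimalPrimes ↥B → ∃ q : Ideal R, q.IsPrime ∧
      q.comap B.subtype = p := fun p hp =>
    Ideal.exists_comap_eq_of_mem_minimalPrimes_of_injective Subtype.val_injective p hp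
  choose! q hq1 hq2 using hex
  let t : Finset (Ideal R) := hfin.toFinset.image q
  have ht : ∀ J ∈ t, J.IsPrime := by
    intro J hJ
    obtain ⟨p, hp, rfl⟩ := Finset.mem_image.1 hJ
    exact hq1 p ((Set.Finite.mem_toFinset _).1 hp)
  obtain ⟨J, hJ⟩ : ∃ J : Ideal R, J = (nilradical ↥B).map B.subtype := ⟨_, rfl⟩
  have hJm : J ^ m = ⊥ := by
    rw [hJ, ← Ideal.map_pow, hm]
    exact Ideal.map_bot
  have h1 := primes_step hC Γ t ht (fun J hJ => h J (ht J hJ))
  have hle : J ≤ t.inf id := by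
    rw [hJ, Ideal.map_le_iff_le_comap]
    intro x hx
    rw [Ideal.mem_comap, Finset.inf_id_eq_sInf, Submodule.mem_sInf]
    intro I hI
    obtain ⟨p, hp, rfl⟩ := Finset.mem_image.1 hI
    have hp' := (Set.Finite.mem_toFinset _).1 hp
    have h2 : x ∈ (q p).comap B.subtype := by
      rw [hq2 p hp']
      have hpp : p.IsPrime := hp'.1.1
      exact nilradical_le_prime p hx
    exact h2
  have heq : (Vj n (t.inf id)).subgroupOf Γ = (Vj n (J ^ (0 + 1))).subgroupOf Γ := by
    rw [zero_add, pow_one]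
    apply le_antisymm
    · intro x hx
      rw [Subgroup.mem_subgroupOf] at hx ⊢
      rw [mem_Vj_coeff] at hx ⊢
      intro i w
      have h2 : coeff w (x.1 (X i) - X i) ∈ B := by
        have h3 : x.1 (X i) - X i ∈ SB n B := sub_mem ((hD x.2).1 i) ⟨X i, MvPolynomial.map_X _ i⟩
        exact mem_SB.1 h3 w
      have h3 : (⟨_, h2⟩ : ↥B) ∈ nilradical ↥B := by
        have h4 : nilradical ↥B = sInf (minimalPrimes ↥B) :=
          (Ideal.sInf_minimalPrimes (I := (⊥ : Ideal ↥B))).symm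
        rw [h4, Submodule.mem_sInf]
        intro p hp
        rw [← hq2 p hp, Ideal.mem_comap]
        have h5 := hx i w
        rw [Finset.inf_id_eq_sInf, Submodule.mem_sInf] at h5
        exact h5 _ (Finset.mem_coe.2 (Finset.mem_image.2 ⟨p, (Set.Finite.mem_toFinset _).2 hp, rfl⟩))
      have h4 := Ideal.mem_map_of_mem B.subtype h3
      rw [← hJ] at h4
      exact h4
    · intro x hx
      rw [Subgroup.mem_subgroupOf] at hx ⊢
      exact Vj_mono hle hx
  have h1' := quot_congr heq h1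
  have h2 := hC.chain_quot (Γ := ↥Γ) (fun k => (Vj n (J ^ (k + 1))).subgroupOf Γ)
    (fun k x hx => Vj_mono (Ideal.pow_le_pow_right (by omega)) hx)
    (fun k x hx y hy => Vj_comm (J := J ^ (k + 1)) (by
      rw [← pow_add]
      exact Ideal.pow_le_pow_right (by omega)) hx hy) h1' m
  refine hC.of_injective _ _ (QuotientGroup.mk' ((Vj n (J ^ (m + 1))).subgroupOf Γ)) ?_ h2
  rw [injective_iff_map_eq_one]
  intro x hx
  have h4 : x ∈ (Vj n (J ^ (m + 1))).subgroupOf Γ := (QuotientGroup.eq_one_iff x).1 hx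
  rw [Subgroup.mem_subgroupOf, pow_succ, hJm, Ideal.bot_mul, Vj_bot, Subgroup.mem_bot] at h4
  exact Subtype.ext h4

/-- **reduction to fields** -/
theorem red (hC : TreeClosed C) (Γ : Subgroup (PA n R))
    (h : ∀ J : Ideal R, J.IsPrime → C ↥(Γ.map (bc (rf J)))) : C ↥Γ := by
  refine hC.of_fg fun H hH => ?_
  have h1 : (H.map Γ.subtype).FG := by
    classical
    obtain ⟨T, hT⟩ := (Group.fg_iff_subgroup_fg _).1 hH
    refine ⟨T.image Γ.subtype, ?_⟩
    rw [← hT, MonoidHom.map_closure, Finset.coe_image]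
  have h2 : C ↥(H.map Γ.subtype) := by
    refine fg_step hC _ h1 (fun J hJ => hC.le ?_ (h J hJ))
    apply Subgroup.map_mono
    rintro _ ⟨x, -, rfl⟩
    exact x.2
  refine hC.of_injective _ _ (Γ.subtype.subgroupMap H) ?_ h2
  intro a b hab
  have h3 : (a.1.1 : PA n R) = b.1.1 :=
    congrArg (fun z : ↥(H.map Γ.subtype) => (z : PA n R)) hab
  exact Subtype.ext (Subtype.ext h3)

end Pool.Agent.U722.TT
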