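import Pool.Agent.U722.TT.Sb
import Pool.Agent.U293.PA.Acyl
import Pool.Agent.U293.PA.Solv

/-!
# Groups of polynomial automorphisms of the affine plane over a field
-/

set_option autoImplicit false

namespace Pool.Agent.U722.TT

open MvPolynomial
open Pool.Agent.U293.PA

variable {C : ∀ (G : Type) [Group G], Prop} {K : Type} [Field K]

/-- the coefficients of a linear polynomial -/
noncomputable def lc (P : Rg K) (i : Fin 2) : K :=
  eval (Pi.single i (1 : K)) P - eval (0 : Fin 2 → K) P

theorem lc_lin (a b e : K) (i : Fin 2) :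
    lc (MvPolynomial.C a * X 0 + MvPolynomial.C b * X 1 + MvPolynomial.C e : Rg K) i = ![a, b] i := by
  unfold lc
  fin_cases i <;> simp

theorem lc_comb (a b e : K) (P Q : Rg K) (i : Fin 2) :
    lc (MvPolynomial.C a * P + MvPolynomial.C b * Q + MvPolynomial.C e : Rg K) i =
      a * lc P i + b * lc Q i := by
  unfold lc
  simp only [map_add, map_mul, eval_C]
  ring

/-- the linear part -/
noncomputable def lp (g : Au K) : Matrix (Fin 2) (Fin 2) K := fun i j => lc (g (X j)) i

theorem lp_spec {g : Au K} (hg : g ∈ affG (⊤ : Subfield K)) (j : Fin 2) :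
    ∃ e : K, g (X j) = MvPolynomial.C (lp g 0 j) * X 0 + MvPolynomial.C (lp g 1 j) * X 1 +
      MvPolynomial.C e := by
  obtain ⟨a, b, c, d, e, f, h0, h1⟩ := aff_top.1 hg
  fin_cases j
  · refine ⟨e, ?_⟩
    change g (X 0) = MvPolynomial.C (lc (g (X 0)) 0) * X 0 + MvPolynomial.C (lc (g (X 0)) 1) * X 1 +
      MvPolynomial.C e
    rw [h0, lc_lin, lc_lin]
    rfl
  · refine ⟨f, ?_⟩
    change g (X 1) = MvPolynomial.C (lc (g (X 1)) 0) * X 0 + MvPolynomial.C (lc (g (X 1)) 1) * X 1 +
      MvPolynomial.C f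
    rw [h1, lc_lin, lc_lin]
    rfl

theorem lp_mul {g h : Au K} (hh : h ∈ affG (⊤ : Subfield K)) :
    lp (g * h) = lp g * lp h := by
  ext i j
  obtain ⟨e, he⟩ := lp_spec hh j
  change lc ((g * h) (X j)) i = _
  rw [AlgEquiv.mul_apply, he, map_add, map_add, map_mul, map_mul, gC, gC, gC, lc_comb,
    Matrix.mul_apply, Fin.sum_univ_two]
  change lp h 0 j * lp g i 0 + lp h 1 j * lp g i 1 = _
  ring

theorem lp_one : lp (1 : Au K) = 1 := by
  ext i j
  change lc (X j : Rg K) i = _
  unfold lc
  rw [eval_X, eval_X, Matrix.one_apply, Pi.zero_apply, sub_zero, Pi.single_apply]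
  simp only [eq_comm]

/-- **the affine group** -/
theorem aff_mem (hC : TreeClosed C) (hGL : C (Matrix.GeneralLinearGroup (Fin 2) K)) :
    C ↥(affG (⊤ : Subfield K)) := by
  let f : ↥(affG (⊤ : Subfield K)) →* Matrix (Fin 2) (Fin 2) K :=
    { toFun := fun g => lp g.1
      map_one' := lp_one
      map_mul' := fun g h => lp_mul h.2 }
  let F : ↥(affG (⊤ : Subfield K)) →* Matrix.GeneralLinearGroup (Fin 2) K := f.toHomUnits
  refine hC.solv_ker F.rangeRestrict F.rangeRestrict_surjective ?_
    (hC.of_injective _ _ F.range.subtype (Subgroup.subtype_injective _) hGL)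
  apply Group.isSolvable_of_comm
  have key : ∀ g : ↥(affG (⊤ : Subfield K)), F.rangeRestrict g = 1 → ∀ j : Fin 2, ∃ e : K,
      g.1 (X j) = X j + MvPolynomial.C e := by
    intro g hg j
    obtain ⟨e, he⟩ := lp_spec g.2 j
    have h1 : lp g.1 = 1 := congrArg (fun z : ↥F.range => z.1.1) hg
    refine ⟨e, ?_⟩
    rw [he, h1, Matrix.one_apply, Matrix.one_apply]
    fin_cases j <;> simp
  rintro ⟨a, ha⟩ ⟨b, hb⟩
  apply Subtype.ext
  apply Subtype.ext
  have h2 : ∀ j, (a.1 * b.1) (X j) = (b.1 * a.1) (X j) := by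
    intro j
    obtain ⟨e, he⟩ := key a ha j
    obtain ⟨e', he'⟩ := key b hb j
    rw [AlgEquiv.mul_apply, AlgEquiv.mul_apply, he, he', map_add, map_add, gC, gC, he, he']
    ring
  exact ext_of (h2 0) (h2 1)

variable {A B : Subgroup (Au K)}

theorem stabA (hC : TreeClosed C) (hA : C A) (g : GG A B) :
    C ↥(MulAction.stabilizer (GG A B) (vA A B g)) := by
  let f : ↥(MulAction.stabilizer (GG A B) (vA A B g)) →* A :=
    { toFun := fun x => ⟨(g : Au K)⁻¹ * ((x : GG A B) : Au K) * (g : Au K), fixA x.2⟩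
      map_one' := by
        apply Subtype.ext
        simp
      map_mul' := fun x y => by
        apply Subtype.ext
        simp only [Subgroup.coe_mul]
        group }
  refine hC.of_injective _ _ f ?_ hA
  intro x y hxy
  have h1 := congrArg Subtype.val hxy
  have h2 : (g : Au K)⁻¹ * ((x : GG A B) : Au K) * (g : Au K) =
      (g : Au K)⁻¹ * ((y : GG A B) : Au K) * (g : Au K) := h1
  have h3 := mul_left_cancel (mul_right_cancel h2)
  exact Subtype.ext (Subtype.ext h3)

theorem stabB (hC : TreeClosed C) (hB : C B) (g : GG A B) :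
    C ↥(MulAction.stabilizer (GG A B) (vB A B g)) := by
  let f : ↥(MulAction.stabilizer (GG A B) (vB A B g)) →* B :=
    { toFun := fun x => ⟨(g : Au K)⁻¹ * ((x : GG A B) : Au K) * (g : Au K), fixB x.2⟩
      map_one' := by
        apply Subtype.ext
        simp
      map_mul' := fun x y => by
        apply Subtype.ext
        simp only [Subgroup.coe_mul]
        group }
  refine hC.of_injective _ _ f ?_ hB
  intro x y hxy
  have h1 := congrArg Subtype.val hxy
  have h2 : (g : Au K)⁻¹ * ((x : GG A B) : Au K) * (g : Au K) =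
      (g : Au K)⁻¹ * ((y : GG A B) : Au K) * (g : Au K) := h1
  have h3 := mul_left_cancel (mul_right_cancel h2)
  exact Subtype.ext (Subtype.ext h3)

/-- **the group generated by the affine and the triangular automorphisms** -/
theorem tame_field (hC : TreeClosed C) (hQ : ∀ n : ℕ, C (Matrix.GeneralLinearGroup (Fin n) ℚ))
    (K : Type) [Field K] : C ↥(affG (⊤ : Subfield K) ⊔ triG (⊤ : Subfield K)) := by
  refine hC.tree (GG (affG (⊤ : Subfield K)) (triG (⊤ : Subfield K))) (Vt _ _) (tr _ _)
    (tr_tree (pair_of ⊤)) (fun g u v h => tr_act g u v h) (fun g u v h h1 h2 => tr_inv g u v h ⟨h1, h2⟩)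
    ?_
  intro v
  rcases cases_v v with ⟨g, rfl⟩ | ⟨g, rfl⟩
  · exact stabA hC (aff_mem hC (fields hC hQ K)) g
  · exact stabB hC (hC.solv _ tri_solvable) g

end Pool.Agent.U722.TT
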