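import Pool.Agent.U722.TT.Pb
import Pool.Agent.U722.TT.Pf

/-!
# Groups of automorphisms of `R[x, y]`
-/

set_option autoImplicit false

namespace Pool.Agent.U722.TT

open MvPolynomial (X map)
open Pool.Agent.U293.PA

variable {C : ∀ (G : Type) [Group G], Prop}

/-- the polynomial `a x + b y + e` -/
noncomputable def lin3 {R : Type} [CommRing R] (a b e : R) : MvPolynomial (Fin 2) R :=
  MvPolynomial.C a * X 0 + MvPolynomial.C b * X 1 + MvPolynomial.C e

/-- the polynomial `p(y)` -/
noncomputable def inY {R : Type} [CommRing R] (p : Polynomial R) : MvPolynomial (Fin 2) R :=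
  Polynomial.aeval (X 1) p

/-- affine: `x ↦ a x + b y + e`, `y ↦ c x + d y + f` -/
def IsAffine {R : Type} [CommRing R] (g : PA 2 R) : Prop :=
  ∃ a b c d e f : R, g (X 0) = lin3 a b e ∧ g (X 1) = lin3 c d f

/-- triangular: `x ↦ a x + p(y)`, `y ↦ b y + c` -/
def IsTriangular {R : Type} [CommRing R] (g : PA 2 R) : Prop :=
  ∃ (a b c : R) (p : Polynomial R), g (X 0) = lin3 a 0 0 + inY p ∧ g (X 1) = lin3 0 b c

theorem isTriangular_iff {R : Type} [CommRing R] {g : PA 2 R} : IsTriangular g ↔
    ∃ (a b c : R) (p : Polynomial R),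
    g (X 0) = MvPolynomial.C a * X 0 + Polynomial.aeval (X 1) p ∧
    g (X 1) = MvPolynomial.C b * X 1 + MvPolynomial.C c := by
  have e1 : ∀ a : R, lin3 a 0 0 = MvPolynomial.C a * X 0 := fun a => by simp [lin3]
  have e2 : ∀ b c : R, lin3 0 b c = MvPolynomial.C b * X 1 + MvPolynomial.C c :=
    fun b c => by simp [lin3]
  simp only [IsTriangular, e1, e2, inY]

/-- the group generated by the affine and the triangular automorphisms -/
noncomputable def tame (R : Type) [CommRing R] : Subgroup (PA 2 R) :=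
  Subgroup.closure {g | IsAffine g ∨ IsTriangular g}

theorem tame_eq (K : Type) [Field K] : tame K = affG (⊤ : Subfield K) ⊔ triG (⊤ : Subfield K) := by
  apply le_antisymm
  · rw [tame, Subgroup.closure_le]
    rintro g (hg | hg)
    · exact Subgroup.mem_sup_left (aff_top.2 hg)
    · exact Subgroup.mem_sup_right (tri_top.2 (isTriangular_iff.1 hg))
  · refine sup_le ?_ ?_
    · intro g hg
      exact Subgroup.subset_closure (Or.inl (aff_top.1 hg))
    · intro g hg
      exact Subgroup.subset_closure (Or.inr (isTriangular_iff.2 (tri_top.1 hg)))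

theorem tame_map {R S : Type} [CommRing R] [CommRing S] (φ : R →+* S) :
    (tame R).map (bc φ) ≤ tame S := by
  rw [tame, MonoidHom.map_closure, Subgroup.closure_le]
  rintro _ ⟨g, hg | hg, rfl⟩
  · obtain ⟨a, b, c, d, e, f, h0, h1⟩ := hg
    refine Subgroup.subset_closure (Or.inl ⟨φ a, φ b, φ c, φ d, φ e, φ f, ?_, ?_⟩)
    · rw [bc_X, h0]
      simp only [lin3, map_add, map_mul, MvPolynomial.map_C, MvPolynomial.map_X]
    · rw [bc_X, h1]
      simp only [lin3, map_add, map_mul, MvPolynomial.map_C, MvPolynomial.map_X]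
  · obtain ⟨a, b, c, p, h0, h1⟩ := isTriangular_iff.1 hg
    refine Subgroup.subset_closure (Or.inr (isTriangular_iff.2 ⟨φ a, φ b, φ c, p.map φ, ?_, ?_⟩))
    · rw [bc_X, h0, map_add, map_mul, MvPolynomial.map_C, MvPolynomial.map_X]
      congr 1
      rw [Polynomial.aeval_def, Polynomial.aeval_def, Polynomial.eval₂_map, Polynomial.hom_eval₂,
        MvPolynomial.map_X]
      congr 1
      ext r
      simp [MvPolynomial.algebraMap_eq]
    · rw [bc_X, h1]
      simp only [map_add, map_mul, MvPolynomial.map_C, MvPolynomial.map_X]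

/-- **groups of automorphisms of `R[x, y]`** -/
theorem plane (hC : TreeClosed C) (hQ : ∀ n : ℕ, C (Matrix.GeneralLinearGroup (Fin n) ℚ))
    {R : Type} [CommRing R] (Γ : Subgroup (PA 2 R))
    (h : ∀ J : Ideal R, J.IsPrime → Γ.map (bc (rf J)) ≤ tame (FractionRing (R ⧸ J))) : C ↥Γ := by
  refine red hC Γ fun J hJ => hC.le (h J hJ) ?_
  rw [tame_eq]
  exact tame_field hC hQ _

theorem plane_tame (hC : TreeClosed C) (hQ : ∀ n : ℕ, C (Matrix.GeneralLinearGroup (Fin n) ℚ))
    (R : Type) [CommRing R] : C ↥(tame R) :=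
  plane hC hQ (tame R) fun J _ => tame_map (rf J)

end Pool.Agent.U722.TT
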