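import Pool.Agent.U722.TT.Sb

/-!
# Matrices of degree two over commutative rings
-/

set_option autoImplicit false

namespace Pool.Agent.U722.TT

open Matrix
open Pool.Agent.U709 (Cg mem_Cg Cg_comm Cg_mono)

variable {C : ∀ (G : Type) [Group G], Prop}

instance {R : Type} [CommRing R] (J : Ideal R) : (Cg J).Normal := MonoidHom.normal_ker _

theorem Cg_inf {R : Type} [CommRing R] (I J : Ideal R) : Cg (I ⊓ J) = Cg I ⊓ Cg J := by
  ext x
  rw [Subgroup.mem_inf, mem_Cg, mem_Cg, mem_Cg]
  exact ⟨fun h => ⟨fun i j => (h i j).1, fun i j => (h i j).2⟩, fun h i j => ⟨h.1 i j, h.2 i j⟩⟩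

/-- a prime ideal -/
theorem prime_quot (hC : TreeClosed C) (hQ : ∀ n : ℕ, C (GL (Fin n) ℚ))
    {R : Type} [CommRing R] (J : Ideal R) [J.IsPrime] : C (GL (Fin 2) R ⧸ Cg J) := by
  have h1 := fields hC hQ (FractionRing (R ⧸ J))
  let f : GL (Fin 2) R →* GL (Fin 2) (FractionRing (R ⧸ J)) :=
    (GeneralLinearGroup.map (n := Fin 2) (algebraMap (R ⧸ J) (FractionRing (R ⧸ J)))).comp
      (GeneralLinearGroup.map (n := Fin 2) (Ideal.Quotient.mk J))
  have hinj := Pool.Agent.U709.map_inj (algebraMap (R ⧸ J) (FractionRing (R ⧸ J)))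
    (IsFractionRing.injective (R ⧸ J) (FractionRing (R ⧸ J)))
  have hf : ∀ x, f x = 1 ↔ x ∈ Cg J := by
    intro x
    constructor
    · intro h
      exact hinj (by rw [map_one]; exact h)
    · intro h
      have h2 : GeneralLinearGroup.map (n := Fin 2) (Ideal.Quotient.mk J) x = 1 := h
      change GeneralLinearGroup.map (n := Fin 2) (algebraMap (R ⧸ J) (FractionRing (R ⧸ J)))
        (GeneralLinearGroup.map (n := Fin 2) (Ideal.Quotient.mk J) x) = 1
      rw [h2, map_one]
  refine hC.of_injective _ _ (QuotientGroup.lift (Cg J) f (fun x hx => (hf x).2 hx)) ?_ h1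
  rw [injective_iff_map_eq_one]
  intro a ha
  obtain ⟨x, rfl⟩ := QuotientGroup.mk_surjective a
  exact (QuotientGroup.eq_one_iff x).2 ((hf x).1 ha)

theorem finset_quot (hC : TreeClosed C) (hQ : ∀ n : ℕ, C (GL (Fin n) ℚ))
    {R : Type} [CommRing R] (t : Finset (Ideal R)) (ht : ∀ J ∈ t, J.IsPrime) :
    C (GL (Fin 2) R ⧸ Cg (t.inf id)) := by
  classical
  induction t using Finset.induction_on with
  | empty =>
    have h1 : (Cg ((∅ : Finset (Ideal R)).inf id) : Subgroup (GL (Fin 2) R)) = ⊤ := by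
      rw [Finset.inf_empty, eq_top_iff]
      intro x _
      exact mem_Cg.2 (fun _ _ => Submodule.mem_top)
    have h2 : Subsingleton (GL (Fin 2) R ⧸ Cg ((∅ : Finset (Ideal R)).inf id)) := by
      rw [h1]
      exact QuotientGroup.subsingleton_quotient_top
    exact hC.fin _
  | insert J t _ ih =>
    have hJ : J.IsPrime := ht J (Finset.mem_insert_self _ _)
    refine hC.inf_quot (Cg J) (Cg (t.inf id)) _ ?_ (prime_quot hC hQ J)
      (ih (fun K hK => ht K (Finset.mem_insert_of_mem hK)))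
    rw [Finset.inf_insert, id, Cg_inf]

/-- noetherian rings -/
theorem noeth (hC : TreeClosed C) (hQ : ∀ n : ℕ, C (GL (Fin n) ℚ))
    (R : Type) [CommRing R] [IsNoetherianRing R] : C (GL (Fin 2) R) := by
  classical
  have hfin := minimalPrimes.finite_of_isNoetherianRing R
  obtain ⟨m, hm⟩ := IsNoetherianRing.isNilpotent_nilradical R
  obtain ⟨N, hN⟩ : ∃ N, N = nilradical R := ⟨_, rfl⟩
  rw [← hN] at hm
  have hNt : N = hfin.toFinset.inf id := by
    rw [hN, Finset.inf_id_eq_sInf, Set.Finite.coe_toFinset]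
    exact (Ideal.sInf_minimalPrimes (I := (⊥ : Ideal R))).symm
  have h0 : C (GL (Fin 2) R ⧸ Cg (N ^ (0 + 1))) := by
    rw [zero_add, pow_one]
    have h1 := finset_quot hC hQ hfin.toFinset
      (fun J hJ => ((Set.Finite.mem_toFinset _).1 hJ).1.1)
    rw [← hNt] at h1
    exact h1
  have h2 := hC.chain_quot (Γ := GL (Fin 2) R) (fun k => Cg (N ^ (k + 1)))
    (fun k => Cg_mono (Ideal.pow_le_pow_right (by omega)))
    (fun k x hx y hy => Cg_comm (by
      rw [← pow_add]
      exact Ideal.pow_le_pow_right (by omega)) hx hy) h0 m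
  have h3 : Cg (N ^ (m + 1)) = ⊥ := by
    rw [pow_succ, hm, zero_mul, eq_bot_iff]
    intro x hx
    rw [Subgroup.mem_bot]
    apply GeneralLinearGroup.ext
    intro i j
    have := mem_Cg.1 hx i j
    exact sub_eq_zero.1 this
  refine hC.of_injective _ _ (QuotientGroup.mk' (Cg (N ^ (m + 1)))) ?_ h2
  rw [injective_iff_map_eq_one]
  intro x hx
  have h4 : x ∈ Cg (N ^ (m + 1)) := (QuotientGroup.eq_one_iff x).1 hx
  rw [h3] at h4
  exact h4

/-- **all commutative rings** -/
theorem rings (hC : TreeClosed C) (hQ : ∀ n : ℕ, C (GL (Fin n) ℚ))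
    (R : Type) [CommRing R] : C (GL (Fin 2) R) := by
  refine of_sub hC R ?_
  intro S
  refine ⟨Subring.closure (S : Set R), fun x hx => Subring.subset_closure hx, ?_⟩
  have : IsNoetherianRing ↥(Subring.closure (S : Set R)) :=
    is_noetherian_subring_closure _ S.finite_toSet
  exact noeth hC hQ _

end Pool.Agent.U722.TT
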