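import Pool.Agent.U722.TT.Rg

/-!
# Groups which are residually linear of degree two
-/

set_option autoImplicit false

namespace Pool.Agent.U722.TT

open Matrix

variable {C : ∀ (G : Type) [Group G], Prop}

/-- residually linear of degree two over fields -/
def ResiduallyTwo (N : Type) [Group N] : Prop :=
  ∀ g : N, g ≠ 1 → ∃ (K : Type) (_ : Field K) (f : N →* GL (Fin 2) K), f g ≠ 1

theorem residual (hC : TreeClosed C) (hQ : ∀ n : ℕ, C (GL (Fin n) ℚ)) (N : Type) [Group N]
    (hN : ResiduallyTwo N) : C N := by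
  classical
  choose K instK f hf using hN
  let J := {g : N // g ≠ 1}
  let _ : ∀ g : J, Field (K g.1 g.2) := fun g => instK g.1 g.2
  have h1 := rings hC hQ (∀ g : J, K g.1 g.2)
  let M : N → Matrix (Fin 2) (Fin 2) (∀ g : J, K g.1 g.2) := fun x i j g => (f g.1 g.2 x).1 i j
  have hM1 : M 1 = 1 := by
    ext i j g
    change (f g.1 g.2 1).1 i j = (1 : Matrix (Fin 2) (Fin 2) (∀ g : J, K g.1 g.2)) i j g
    rw [map_one, Matrix.one_apply]
    change (1 : Matrix (Fin 2) (Fin 2) (K g.1 g.2)) i j = _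
    rw [Matrix.one_apply]
    split_ifs <;> rfl
  have hMm : ∀ x y, M (x * y) = M x * M y := by
    intro x y
    ext i j g
    change (f g.1 g.2 (x * y)).1 i j = (M x * M y) i j g
    rw [map_mul, Matrix.mul_apply]
    change ((f g.1 g.2 x).1 * (f g.1 g.2 y).1) i j = _
    rw [Matrix.mul_apply, Finset.sum_apply]
    rfl
  let F : N →* Matrix (Fin 2) (Fin 2) (∀ g : J, K g.1 g.2) :=
    { toFun := M, map_one' := hM1, map_mul' := hMm }
  refine hC.of_injective _ _ F.toHomUnits ?_ h1
  rw [injective_iff_map_eq_one]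
  intro x hx
  by_contra hne
  apply hf x hne
  have h2 : M x = 1 := congrArg Units.val hx
  apply GeneralLinearGroup.ext
  intro i j
  have h3 := congrFun (congrFun (congrFun h2 i) j) ⟨x, hne⟩
  change (f x hne x).1 i j = (1 : Matrix (Fin 2) (Fin 2) (K x hne)) i j
  have h4 : M x i j ⟨x, hne⟩ = (f x hne x).1 i j := rfl
  rw [← h4, h3, Matrix.one_apply, Matrix.one_apply]
  split_ifs <;> rfl

/-- extensions with torsion-free quotients -/
theorem ext_tf (hC : TreeClosed C) {G Q : Type} [Group G] [Group Q] (π : G →* Q)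
    (hπ : Function.Surjective π) (hker : C ↥π.ker) (hQ : C Q)
    (htf : ∀ q : Q, ∀ n : ℕ, 0 < n → q ^ n = 1 → q = 1) : C G := by
  refine hC.ext G Q π hπ hQ ?_
  intro V hV
  refine hC.le ?_ hker
  intro x hx
  rw [MonoidHom.mem_ker]
  have h1 : π x ∈ V := hx
  have h2 : (⟨π x, h1⟩ : ↥V) ^ Nat.card ↥V = 1 := pow_card_eq_one'
  exact htf (π x) (Nat.card ↥V) Nat.card_pos (congrArg Subtype.val h2)

end Pool.Agent.U722.TT
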