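import Pool.Agent.U722.TT.Fd
import Pool.Agent.U709.Fld

/-!
# Finitely generated groups of matrices of degree two have entries in finitely generated rings
-/

set_option autoImplicit false

namespace Pool.Agent.U722.TT

open Matrix

variable {C : ∀ (G : Type) [Group G], Prop}

theorem mem_rng {A : Type} [CommRing A] (B : Subring A) (g : GL (Fin 2) A)
    (h : ∀ i j, g.1 i j ∈ B) (h' : ∀ i j, (g⁻¹).1 i j ∈ B) :
    g ∈ (GeneralLinearGroup.map (n := Fin 2) B.subtype).range := by
  let M : Matrix (Fin 2) (Fin 2) ↥B := fun i j => ⟨g.1 i j, h i j⟩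
  let M' : Matrix (Fin 2) (Fin 2) ↥B := fun i j => ⟨(g⁻¹).1 i j, h' i j⟩
  have e1 : ∀ X Y : Matrix (Fin 2) (Fin 2) ↥B, B.subtype.mapMatrix X = B.subtype.mapMatrix Y → X = Y := by
    intro X Y hXY
    ext i j
    exact congrFun (congrFun hXY i) j
  have h1 : M * M' = 1 := by
    apply e1
    rw [map_mul, map_one]
    exact Units.mul_inv g
  have h2 : M' * M = 1 := by
    apply e1
    rw [map_mul, map_one]
    exact Units.inv_mul g
  refine ⟨⟨M, M', h1, h2⟩, ?_⟩
  apply GeneralLinearGroup.ext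
  intro i j
  rfl

/-- finitely generated groups of matrices -/
theorem ent {A : Type} [CommRing A] (H : Subgroup (GL (Fin 2) A)) (hH : Group.FG ↥H) :
    ∃ S : Finset A, ∀ B : Subring A, (∀ x ∈ S, x ∈ B) →
      H ≤ (GeneralLinearGroup.map (n := Fin 2) B.subtype).range := by
  classical
  obtain ⟨T, hT⟩ := (Group.fg_iff_subgroup_fg _).1 hH
  refine ⟨T.biUnion (fun g => Finset.univ.image (fun p : Fin 2 × Fin 2 => g.1 p.1 p.2) ∪
    Finset.univ.image (fun p : Fin 2 × Fin 2 => (g⁻¹).1 p.1 p.2)), fun B hB => ?_⟩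
  rw [← hT, Subgroup.closure_le]
  intro g hg
  refine mem_rng B g (fun i j => hB _ ?_) (fun i j => hB _ ?_)
  · rw [Finset.mem_biUnion]
    exact ⟨g, hg, Finset.mem_union_left _ (Finset.mem_image.2 ⟨(i, j), Finset.mem_univ _, rfl⟩)⟩
  · rw [Finset.mem_biUnion]
    exact ⟨g, hg, Finset.mem_union_right _ (Finset.mem_image.2 ⟨(i, j), Finset.mem_univ _, rfl⟩)⟩

/-- reduction to subrings which contain a given finite set -/
theorem of_sub (hC : TreeClosed C) (A : Type) [CommRing A]
    (h : ∀ S : Finset A, ∃ B : Subring A, (∀ x ∈ S, x ∈ B) ∧ C (GL (Fin 2) ↥B)) :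
    C (GL (Fin 2) A) := by
  refine hC.of_fg ?_
  intro H hH
  obtain ⟨S, hS⟩ := ent H hH
  obtain ⟨B, hB, hCB⟩ := h S
  have hinj := Pool.Agent.U709.map_inj B.subtype Subtype.val_injective
  refine hC.le (hS B hB) ?_
  exact hC.of_injective _ _ (MonoidHom.ofInjective hinj).symm.toMonoidHom
    (MonoidHom.ofInjective hinj).symm.injective hCB

/-- **fields** -/
theorem fld (hC : TreeClosed C) {k : Type} [Field k] (hk : ∀ n : ℕ, C (GL (Fin n) k))
    (K : Type) [Field K] [Algebra k K] : C (GL (Fin 2) K) := by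
  refine of_sub hC K ?_
  intro S
  refine ⟨(Algebra.adjoin k (S : Set K)).toSubring, fun x hx => Algebra.subset_adjoin hx, ?_⟩
  have h1 : Algebra.FiniteType k ↥(Algebra.adjoin k (S : Set K)) :=
    (Subalgebra.fg_iff_finiteType _).1 ⟨S, rfl⟩
  exact ft hC hk ↥(Algebra.adjoin k (S : Set K))

/-- **all fields** -/
theorem fields (hC : TreeClosed C) (hQ : ∀ n : ℕ, C (GL (Fin n) ℚ))
    (K : Type) [Field K] : C (GL (Fin 2) K) := by
  obtain ⟨p, hp⟩ := CharP.exists K
  rcases CharP.char_is_prime_or_zero K p with h | h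
  · have : Fact p.Prime := ⟨h⟩
    let inst : Algebra (ZMod p) K := ZMod.algebra K p
    exact fld hC (fun n => hC.fin (GL (Fin n) (ZMod p))) K
  · subst h
    have : CharZero K := CharP.charP_to_charZero K
    exact fld hC hQ K

end Pool.Agent.U722.TT
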