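import Pool.Agent.U709.BT

/-!
# Discrete valuations of finite separable extensions
-/

set_option autoImplicit false

namespace Pool.Agent.U722.TT

open Pool.Agent.U709.BT
open IsDedekindDomain

section ring

variable {K : Type} [Field K] (V : DV K)

/-- the valuation ring -/
def Og : ValuationSubring K where
  carrier := {x | V.L 0 x}
  mul_mem' {a b} ha hb := by
    have h := DV.L_mul (V := V) ha hb
    rwa [add_zero] at h
  one_mem' := DV.L_one
  add_mem' ha hb := DV.L_add ha hb
  zero_mem' := DV.L_zero 0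
  neg_mem' ha := DV.L_neg ha
  mem_or_inv_mem' x := by
    by_cases hx : x = 0
    · left
      rw [hx]
      exact DV.L_zero 0
    · rcases le_total 0 (V.v x) with h | h
      · exact Or.inl (fun _ => h)
      · right
        intro _
        rw [DV.v_inv V hx]
        omega

theorem mem_Og {x : K} : x ∈ Og V ↔ V.L 0 x := Iff.rfl

theorem Og_unit {x : K} (hx : x ≠ 0) (hv : V.v x = 0) (h : x ∈ Og V) : IsUnit (⟨x, h⟩ : Og V) := by
  refine IsUnit.of_mul_eq_one ⟨x⁻¹, fun _ => ?_⟩ ?_
  · rw [DV.v_inv V hx, hv, neg_zero]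
  · exact Subtype.ext (mul_inv_cancel₀ hx)

theorem Og_dvr : IsDiscreteValuationRing (Og V) := by
  refine IsDiscreteValuationRing.ofHasUnitMulPowIrreducibleFactorization ?_
  have hw : V.w ∈ Og V := fun _ => by rw [V.v_w]; omega
  refine ⟨⟨V.w, hw⟩, ⟨?_, ?_⟩, ?_⟩
  · intro h
    obtain ⟨y, hy⟩ := h.exists_right_inv
    have h1 : V.w * y.1 = 1 := congrArg Subtype.val hy
    have hy0 : y.1 ≠ 0 := by
      intro h0
      rw [h0, mul_zero] at h1
      exact zero_ne_one h1
    have h2 := V.map_mul _ _ V.w_ne hy0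
    rw [h1, DV.v_one, V.v_w] at h2
    have h3 : (0 : ℤ) ≤ V.v y.1 := y.2 hy0
    omega
  · intro a b hab
    have h1 : V.w = a.1 * b.1 := congrArg Subtype.val hab
    have ha0 : a.1 ≠ 0 := by
      intro h0
      rw [h0, zero_mul] at h1
      exact V.w_ne h1
    have hb0 : b.1 ≠ 0 := by
      intro h0
      rw [h0, mul_zero] at h1
      exact V.w_ne h1
    have h2 := V.map_mul _ _ ha0 hb0
    rw [← h1, V.v_w] at h2
    have h3 : (0 : ℤ) ≤ V.v a.1 := a.2 ha0
    have h4 : (0 : ℤ) ≤ V.v b.1 := b.2 hb0
    rcases (by omega : V.v a.1 = 0 ∨ V.v b.1 = 0) with h | h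
    · exact Or.inl (Og_unit V ha0 h a.2)
    · exact Or.inr (Og_unit V hb0 h b.2)
  · rintro ⟨x, hx⟩ hx0
    have hx0' : x ≠ 0 := fun h => hx0 (Subtype.ext h)
    have h1 : (0 : ℤ) ≤ V.v x := hx hx0'
    refine ⟨(V.v x).toNat, ?_⟩
    obtain ⟨n, hn⟩ : ∃ n : ℕ, V.v x = n := ⟨(V.v x).toNat, by omega⟩
    have hpow : ∀ m : ℕ, V.v (V.w ^ m) = m := by
      intro m
      induction m with
      | zero => rw [pow_zero, DV.v_one]; rfl
      | succ m ih =>
        rw [pow_succ, V.map_mul _ _ (pow_ne_zero _ V.w_ne) V.w_ne, ih, V.v_w]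
        push_cast
        ring
    have hn' : (V.v x).toNat = n := by omega
    rw [hn']
    have hq : V.v (x / V.w ^ n) = 0 := by
      have h2 := V.map_mul (x / V.w ^ n) (V.w ^ n) (div_ne_zero hx0' (pow_ne_zero _ V.w_ne))
        (pow_ne_zero _ V.w_ne)
      rw [div_mul_cancel₀ _ (pow_ne_zero _ V.w_ne), hpow, hn] at h2
      omega
    have hqm : x / V.w ^ n ∈ Og V := fun _ => by rw [hq]
    have hu := Og_unit V (div_ne_zero hx0' (pow_ne_zero _ V.w_ne)) hq hqm
    refine ⟨hu.unit, ?_⟩
    apply Subtype.ext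
    change V.w ^ n * (x / V.w ^ n) = x
    exact mul_div_cancel₀ _ (pow_ne_zero _ V.w_ne)

end ring

/-- the discrete valuation of a valuation with integral values -/
noncomputable def ofVal {E : Type} [Field E] (w : Valuation E (WithZero (Multiplicative ℤ))) (π : E)
    (hπ : w π = WithZero.exp (-1 : ℤ)) : DV E where
  v x := - WithZero.log (w x)
  map_mul a b ha hb := by
    rw [map_mul, WithZero.log_mul ((Valuation.ne_zero_iff w).2 ha) ((Valuation.ne_zero_iff w).2 hb)]
    ring
  map_add a b ha hb hab := by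
    have h1 := w.map_add a b
    have ha' := (Valuation.ne_zero_iff w).2 ha
    have hb' := (Valuation.ne_zero_iff w).2 hb
    have hab' := (Valuation.ne_zero_iff w).2 hab
    rcases le_max_iff.1 h1 with h | h
    · have h2 := (WithZero.log_le_log hab' ha').2 h
      exact min_le_iff.2 (Or.inl (by omega))
    · have h2 := (WithZero.log_le_log hab' hb').2 h
      exact min_le_iff.2 (Or.inr (by omega))
  w := π
  w_ne := by
    intro h
    rw [h, map_zero] at hπ
    exact WithZero.exp_ne_zero hπ.symm
  v_w := by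
    rw [hπ, WithZero.log_exp]
    rfl

theorem ofVal_le {E : Type} [Field E] (w : Valuation E (WithZero (Multiplicative ℤ))) (π : E)
    (hπ : w π = WithZero.exp (-1 : ℤ)) {x : E} (h : (ofVal w π hπ).L 0 x) : w x ≤ 1 := by
  by_cases hx : x = 0
  · rw [hx, map_zero]
    exact zero_le_one
  · have h1 : (0 : ℤ) ≤ - WithZero.log (w x) := h hx
    have h2 : WithZero.log (w x) ≤ 0 := by omega
    exact (WithZero.log_le_iff_le_exp ((Valuation.ne_zero_iff w).2 hx)).1 h2

/-- **finitely many discrete valuations which decide integrality over a discrete valuation ring** -/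
theorem ded (A : Type) [CommRing A] [IsDomain A] [IsDiscreteValuationRing A] (K : Type) [Field K]
    [Algebra A K] [IsFractionRing A K] (E : Type) [Field E] [Algebra K E] [Algebra A E]
    [IsScalarTower A K E] [FiniteDimensional K E] [Algebra.IsSeparable K E] :
    ∃ l : List (DV E), ∀ a : E, (∀ V ∈ l, V.L 0 a) → IsIntegral A a := by
  classical
  have h1 : IsDedekindDomain (integralClosure A E) := integralClosure.isDedekindDomain A K E
  have h2 : IsFractionRing (integralClosure A E) E :=
    integralClosure.isFractionRing_of_finite_extension K E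
  obtain ⟨ϖ, hϖ⟩ := IsDiscreteValuationRing.exists_irreducible A
  have hI : Ideal.span {algebraMap A (integralClosure A E) ϖ} ≠ 0 := by
    intro h
    have h3 : algebraMap A (integralClosure A E) ϖ = 0 := Ideal.span_singleton_eq_bot.1 h
    have h4 : algebraMap A E ϖ = 0 := congrArg Subtype.val h3
    rw [IsScalarTower.algebraMap_apply A K E, map_eq_zero, IsFractionRing.to_map_eq_zero_iff] at h4
    exact hϖ.ne_zero h4
  have hfin := Ideal.finite_factors hI
  have hall : ∀ v : HeightOneSpectrum (integralClosure A E),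
      v.asIdeal ∣ Ideal.span {algebraMap A (integralClosure A E) ϖ} := by
    intro v
    rw [Ideal.dvd_span_singleton]
    have hmax : v.asIdeal.IsMaximal := v.isMaximal
    have h3 : (v.asIdeal.comap (algebraMap A (integralClosure A E))).IsMaximal :=
      Ideal.isMaximal_comap_of_isIntegral_of_isMaximal v.asIdeal
    have h4 := IsLocalRing.eq_maximalIdeal h3
    have h5 : ϖ ∈ v.asIdeal.comap (algebraMap A (integralClosure A E)) := by
      rw [h4]
      exact hϖ.not_isUnit
    exact h5
  refine ⟨hfin.toFinset.toList.map (fun v => ofVal (v.valuation E)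
    (v.valuation_exists_uniformizer E).choose (v.valuation_exists_uniformizer E).choose_spec), ?_⟩
  intro a ha
  have h3 : a ∈ (algebraMap (integralClosure A E) E).range := by
    apply HeightOneSpectrum.mem_integers_of_valuation_le_one
    intro v
    refine ofVal_le _ _ (v.valuation_exists_uniformizer E).choose_spec (ha _ ?_)
    rw [List.mem_map]
    exact ⟨v, Finset.mem_toList.2 ((Set.Finite.mem_toFinset _).2 (hall v)), rfl⟩
  obtain ⟨b, rfl⟩ := h3
  exact b.2

end Pool.Agent.U722.TT
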